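import Pool.Agent.Y157.PS.SupN

/-! A polynomial with irreducible reduction is irreducible. -/

set_option autoImplicit false

namespace Pool.Agent.Q52.SecX

open Polynomial NumberField IsDedekindDomain

theorem irr_of_red {K : Type} [Field K] [NumberField K] (v : HeightOneSpectrum (𝓞 K))
    (g : (𝓞 K)[X]) (hlc : g.leadingCoeff ∉ v.asIdeal)
    (hirr : Irreducible (g.map (Ideal.Quotient.mk v.asIdeal))) :
    Irreducible (g.map (algebraMap (𝓞 K) K)) := by
  classical
  have hvm : v.asIdeal.IsMaximal := v.isMaximal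
  have hvp : v.asIdeal.IsPrime := v.isPrime
  have hle : v.asIdeal.primeCompl ≤ nonZeroDivisors (𝓞 K) := v.asIdeal.primeCompl_le_nonZeroDivisors
  let A := Localization.subalgebra.ofField K v.asIdeal.primeCompl hle
  have hloc : IsLocalization.AtPrime A v.asIdeal :=
    Localization.subalgebra.isLocalization_ofField K v.asIdeal.primeCompl hle
  have hdvr : IsDiscreteValuationRing A :=
    IsLocalization.AtPrime.isDiscreteValuationRing_of_dedekind_domain (𝓞 K) v.ne_bot A
  have hfr : IsFractionRing A K := inferInstance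
  have hunit : ∀ c : 𝓞 K, c ∉ v.asIdeal → IsUnit (algebraMap (𝓞 K) A c) := fun c hc =>
    (IsLocalization.AtPrime.isUnit_to_map_iff A v.asIdeal c).2 hc
  let e : (𝓞 K ⧸ v.asIdeal) ≃+* IsLocalRing.ResidueField A :=
    IsLocalization.AtPrime.equivQuotMaximalIdeal v.asIdeal A
  have hcomp : (IsLocalRing.residue A).comp (algebraMap (𝓞 K) A) =
      (e : (𝓞 K ⧸ v.asIdeal) →+* IsLocalRing.ResidueField A).comp
        (Ideal.Quotient.mk v.asIdeal) := by
    ext c
    rfl
  have hcompK : (algebraMap A K).comp (algebraMap (𝓞 K) A) = algebraMap (𝓞 K) K := by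
    ext c
    rfl
  have hlcA0 : algebraMap (𝓞 K) A g.leadingCoeff ≠ 0 := (hunit _ hlc).ne_zero
  have hmapres : (g.map (algebraMap (𝓞 K) A)).map (IsLocalRing.residue A) =
      (g.map (Ideal.Quotient.mk v.asIdeal)).map
        (e : (𝓞 K ⧸ v.asIdeal) →+* IsLocalRing.ResidueField A) := by
    rw [Polynomial.map_map, hcomp, ← Polynomial.map_map]
  have hirr2 : Irreducible ((g.map (algebraMap (𝓞 K) A)).map (IsLocalRing.residue A)) := by
    rw [hmapres]
    exact (MulEquiv.irreducible_iff (Polynomial.mapEquiv e)).2 hirr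
  set f := g.map (algebraMap (𝓞 K) A) with hf
  have hlcf : IsUnit f.leadingCoeff := by
    rw [hf, leadingCoeff_map_of_leadingCoeff_ne_zero _ hlcA0]
    exact hunit _ hlc
  obtain ⟨u, hu⟩ := hlcf
  have hmonic : (C (↑(u⁻¹) : A) * f).Monic := by
    have h1 : (C (↑(u⁻¹) : A) * f).coeff f.natDegree = 1 := by
      rw [coeff_C_mul, coeff_natDegree, ← hu, Units.inv_mul]
    have h2 : (C (↑(u⁻¹) : A) * f).natDegree ≤ f.natDegree := natDegree_C_mul_le _ _
    exact monic_of_natDegree_le_of_coeff_eq_one _ h2 h1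
  have hCu : IsUnit (C (↑(u⁻¹) : A)) := (Units.isUnit u⁻¹).map C
  have hirr3 : Irreducible (C (↑(u⁻¹) : A) * f) := by
    refine hmonic.irreducible_of_irreducible_map (IsLocalRing.residue A) _ ?_
    rw [Polynomial.map_mul]
    exact (irreducible_isUnit_mul (hCu.map (Polynomial.mapRingHom (IsLocalRing.residue A)))).2 hirr2
  have hirr4 := (hmonic.irreducible_iff_irreducible_map_fraction_map (K := K)).1 hirr3
  rw [Polynomial.map_mul] at hirr4
  have hirr5 := (irreducible_isUnit_mul (hCu.map (Polynomial.mapRingHom (algebraMap A K)))).1 hirr4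
  rw [hf, Polynomial.map_map, hcompK] at hirr5
  exact hirr5

end Pool.Agent.Q52.SecX
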