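import Pool.Agent.Q52.SecX.Vec
import Pool.Agent.Q52.SecX.Irr

/-! All superelliptic curves over all finite extensions. -/

set_option autoImplicit false

namespace Pool.Agent.Q52.SecX

open Polynomial NumberField IsDedekindDomain WithZero
open Pool.Agent.Y157.PS (S_FUN FineP fineP num_loc)
open Pool.Agent.TH377.Sup (pol GoodV IrrMod)
open Pool.Agent.TH120.Sec (red)

section

variable {K L : Type} [Field K] [NumberField K] [Field L] [NumberField L] [Algebra K L]

/-- the local theorem at a prime `v` modulo which the polynomial is irreducible -/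
theorem fine_irr (d : ℕ) (hd : 3 ≤ d) (v : HeightOneSpectrum (𝓞 K)) (w : HeightOneSpectrum (𝓞 L))
    [w.asIdeal.LiesOver v.asIdeal] (hdv : (d : 𝓞 K) ∉ v.asIdeal) (y : Fin (d + 2) → 𝓞 K)
    (h0 : y 0 ∈ v.asIdeal) (h0' : y 0 ∉ v.asIdeal ^ 2) (hirr : IrrMod v d fun i => y i.succ)
    (ℓ : ℕ) (hℓ : ℓ.Prime) (hℓd : ℓ ∣ d)
    (hram : ¬ ℓ ∣ v.asIdeal.ramificationIdx' w.asIdeal)
    (hin : ¬ d ∣ v.asIdeal.inertiaDeg' w.asIdeal) :
    FineP ℓ (algebraMap K L (algebraMap (𝓞 K) K (y 0)))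
      ((pol fun i : Fin (d + 1) => algebraMap (𝓞 K) K (y i.succ)).map (algebraMap K L)) := by
  classical
  have hvp : v.asIdeal.IsPrime := v.isPrime
  have hvm : v.asIdeal.IsMaximal := v.isMaximal
  have hwp : w.asIdeal.IsPrime := w.isPrime
  have hwm : w.asIdeal.IsMaximal := w.isMaximal
  have hover : v.asIdeal = w.asIdeal.under (𝓞 K) := Ideal.LiesOver.over
  have hmem : ∀ x : 𝓞 K, algebraMap (𝓞 K) (𝓞 L) x ∈ w.asIdeal ↔ x ∈ v.asIdeal := by
    intro x
    rw [hover]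
    rfl
  have hinjKL : Function.Injective (algebraMap (𝓞 K) (𝓞 L)) :=
    FaithfulSMul.algebraMap_injective _ _
  obtain ⟨hlast, hirr⟩ := hirr
  let _ : Field (𝓞 K ⧸ v.asIdeal) := Ideal.Quotient.field _
  let _ : Field (𝓞 L ⧸ w.asIdeal) := Ideal.Quotient.field _
  have hfinv : Finite (𝓞 K ⧸ v.asIdeal) := Ideal.finiteQuotientOfFreeOfNeBot _ v.ne_bot
  have hfinw : Finite (𝓞 L ⧸ w.asIdeal) := Ideal.finiteQuotientOfFreeOfNeBot _ w.ne_bot
  have hlast0 : y (Fin.last d).succ ≠ 0 := by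
    intro h
    apply hlast
    change y (Fin.last d).succ ∈ v.asIdeal
    rw [h]
    exact zero_mem _
  have hℓv : (ℓ : 𝓞 K) ∉ v.asIdeal := by
    intro h
    apply hdv
    obtain ⟨n, hn⟩ := hℓd
    rw [hn]
    push_cast
    exact Ideal.mul_mem_right _ _ h
  have hℓw : (ℓ : 𝓞 L) ∉ w.asIdeal := by
    intro h
    apply hℓv
    rw [← hmem, map_natCast]
    exact h
  set g : (𝓞 K)[X] := pol fun i : Fin (d + 1) => y i.succ with hg
  have hgdeg : g.natDegree = d := Pool.Agent.TH377.Sup.pol_natDegree _ hlast0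
  have hglc : g.leadingCoeff = y (Fin.last d).succ :=
    Pool.Agent.TH377.Sup.pol_leadingCoeff _ hlast0
  set gL : (𝓞 L)[X] := g.map (algebraMap (𝓞 K) (𝓞 L)) with hgL
  have hdegL : gL.natDegree = d := by
    rw [hgL, natDegree_map_eq_of_injective hinjKL, hgdeg]
  have hlcw : gL.leadingCoeff ∉ w.asIdeal := by
    rw [hgL, leadingCoeff_map_of_injective hinjKL, hmem, hglc]
    exact hlast
  have hcomp : (Ideal.Quotient.mk w.asIdeal).comp (algebraMap (𝓞 K) (𝓞 L)) =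
      (algebraMap (𝓞 K ⧸ v.asIdeal) (𝓞 L ⧸ w.asIdeal)).comp (Ideal.Quotient.mk v.asIdeal) := by
    ext x
    rfl
  set p : (𝓞 K ⧸ v.asIdeal)[X] := g.map (Ideal.Quotient.mk v.asIdeal) with hp
  have hpirr : Irreducible p := by
    rw [hp, hg, Pool.Agent.TH377.Sup.pol_map]
    exact hirr
  have hmapL : gL.map (Ideal.Quotient.mk w.asIdeal) =
      p.map (algebraMap (𝓞 K ⧸ v.asIdeal) (𝓞 L ⧸ w.asIdeal)) := by
    rw [hgL, Polynomial.map_map, hcomp, hp, Polynomial.map_map]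
  have hpsep : p.Separable := PerfectField.separable_of_irreducible hpirr
  have hsw : (gL.map (Ideal.Quotient.mk w.asIdeal)).Separable := by
    rw [hmapL]
    exact hpsep.map
  have hpdeg : p.natDegree = d := by
    rw [hp, natDegree_map_of_leadingCoeff_ne_zero, hgdeg]
    rw [hglc]
    exact fun h => hlast (Ideal.Quotient.eq_zero_iff_mem.1 h)
  have hmf : Module.Finite (𝓞 K ⧸ v.asIdeal) (𝓞 L ⧸ w.asIdeal) := Module.Finite.of_finite
  have hrw : ∀ r : 𝓞 L ⧸ w.asIdeal, (gL.map (Ideal.Quotient.mk w.asIdeal)).eval r ≠ 0 := by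
    intro r hr
    rw [hmapL, eval_map] at hr
    apply hin
    have hr' : aeval r p = 0 := hr
    have hint : IsIntegral (𝓞 K ⧸ v.asIdeal) r := Algebra.IsIntegral.isIntegral r
    have h1 : minpoly (𝓞 K ⧸ v.asIdeal) r ∣ p := minpoly.dvd _ r hr'
    have h2 : Associated (minpoly (𝓞 K ⧸ v.asIdeal) r) p :=
      (minpoly.irreducible hint).associated_of_dvd hpirr h1
    have h3 : (minpoly (𝓞 K ⧸ v.asIdeal) r).natDegree = d := by
      rw [natDegree_eq_of_degree_eq (degree_eq_degree_of_associated h2), hpdeg]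
    have h4 := minpoly.degree_dvd hint
    rw [h3] at h4
    rw [Ideal.inertiaDeg'_algebraMap]
    exact h4
  obtain ⟨hb2, hb2'⟩ := exact_ramification v w (y 0) (by rwa [pow_one]) h0'
  have hfact : Fact ℓ.Prime := ⟨hℓ⟩
  obtain ⟨A, _, _, _, _, hfin, hfr, hℓA, fA, hfK, hdegA, hlcA, hsA, hrA, ϖ, t, hϖ, ht, hbt⟩ :=
    num_loc w ℓ hℓw gL hlcw hsw hrw (algebraMap (𝓞 K) (𝓞 L) (y 0)) _ hb2 hb2'
  have key := fineP hFUN hℓA fA hlcA hsA (by rw [hdegA, hdegL]; exact hℓd)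
    (by rw [hdegA, hdegL]; exact hd) hrA ϖ hϖ
    (algebraMap (𝓞 L) L (algebraMap (𝓞 K) (𝓞 L) (y 0)))
    ((v.asIdeal.ramificationIdx' w.asIdeal : ℕ) : ℤ) (by
      intro h
      exact hram (by exact_mod_cast h)) t ht hbt
  have h4 : ∀ x : 𝓞 K, algebraMap (𝓞 L) L (algebraMap (𝓞 K) (𝓞 L) x) =
      algebraMap K L (algebraMap (𝓞 K) K x) := by
    intro x
    rw [← IsScalarTower.algebraMap_apply (𝓞 K) (𝓞 L) L, ← IsScalarTower.algebraMap_apply (𝓞 K) K L]
  have h5 : fA.map (algebraMap A L) =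
      (pol fun i : Fin (d + 1) => algebraMap (𝓞 K) K (y i.succ)).map (algebraMap K L) := by
    rw [hfK, hgL, Polynomial.map_map]
    have h6 : (algebraMap (𝓞 L) L).comp (algebraMap (𝓞 K) (𝓞 L)) =
        (algebraMap K L).comp (algebraMap (𝓞 K) K) := RingHom.ext h4
    rw [h6, ← Polynomial.map_map, hg, Pool.Agent.TH377.Sup.pol_map]
  rw [h5, h4] at key
  exact key

end

/-- the primes of `K` such that for all primes of `L` above them the ramification index is divisible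
by `ℓ` or the residue degree is divisible by `d` -/
def RamSet2 (ℓ d : ℕ) (K L : Type) [Field K] [NumberField K] [Field L] [NumberField L]
    [Algebra K L] : Set (HeightOneSpectrum (𝓞 K)) :=
  {v | ∀ w : HeightOneSpectrum (𝓞 L), w.asIdeal.LiesOver v.asIdeal →
    ℓ ∣ v.asIdeal.ramificationIdx' w.asIdeal ∨ d ∣ v.asIdeal.inertiaDeg' w.asIdeal}

lemma dvd_finrank2 {K L : Type} [Field K] [NumberField K] [Field L] [NumberField L] [Algebra K L]
    (ℓ d : ℕ) (hd : ℓ ∣ d) (v : HeightOneSpectrum (𝓞 K)) (hv : v ∈ RamSet2 ℓ d K L) :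
    ℓ ∣ Module.finrank K L := by
  have hvm : v.asIdeal.IsMaximal := v.isMaximal
  rw [← Ideal.sum_ramification_inertia (𝓞 L) K L v.ne_bot (p := v.asIdeal)]
  refine Finset.dvd_sum fun P hP => ?_
  rw [IsDedekindDomain.mem_primesOverFinset_iff v.ne_bot] at hP
  have hPp : P.IsPrime := hP.1
  have hPo : P.LiesOver v.asIdeal := hP.2
  have hP0 : P ≠ ⊥ := Ideal.ne_bot_of_liesOver_of_ne_bot v.ne_bot P
  rcases hv ⟨P, hPp, hP0⟩ hPo with h | h
  · exact Dvd.dvd.mul_right h _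
  · exact Dvd.dvd.mul_left (hd.trans h) _

theorem main_fam {K : Type} [Field K] [NumberField K] (d : ℕ) (hd : 3 ≤ d) (M : ℕ) (ε : ℝ)
    (hε : 0 < ε) :
    SmallV (d + 2) {y : Fin (d + 2) → 𝓞 K | ¬ (y 0 ≠ 0 ∧ (pol fun i : Fin (d + 1) =>
        algebraMap (𝓞 K) K (y i.succ)).natDegree = d ∧
      Irreducible (pol fun i : Fin (d + 1) => algebraMap (𝓞 K) K (y i.succ)) ∧
      ∀ (L : Type) [Field L] [NumberField L] [Algebra K L], ∀ ℓ : ℕ, ℓ.Prime → ℓ ∣ d →
        ((RamSet2 ℓ d K L).encard < M ∨ ¬ ℓ ∣ Module.finrank K L) →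
        FineP ℓ (algebraMap K L (algebraMap (𝓞 K) K (y 0)))
          ((pol fun i : Fin (d + 1) => algebraMap (𝓞 K) K (y i.succ)).map (algebraMap K L)))} ε := by
  classical
  have hdr : (0 : ℝ) < d := by
    have : 0 < d := by omega
    exact_mod_cast this
  have hδ1 : (1 / (4 * d) : ℝ) ≤ 1 := by
    rw [div_le_one (by positivity)]
    have : (3 : ℝ) ≤ d := by exact_mod_cast hd
    linarith
  have hdK : (d : 𝓞 K) ≠ 0 := by
    rw [Nat.cast_ne_zero]
    omega
  refine (many_vec (d + 2) (fun v : HeightOneSpectrum (𝓞 K) => (d : 𝓞 K) ∉ v.asIdeal)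
    (fun v => (GoodV v d)ᶜ) (1 / (4 * d) : ℝ) ?_ (fun v _ => Pool.Agent.TH377.Sup.badV_card v d hd)
    (M + 1) ∅ ε hε).mono ?_ le_rfl
  · intro c hc δ hδ
    obtain ⟨T, hT, hTδ⟩ := Pool.Agent.TH120.Sec.supply_split 2 Nat.prime_two
      (c * (d : 𝓞 K)) (mul_ne_zero hc hdK) (1 / (4 * d) : ℝ) (by positivity) hδ1 δ hδ
    exact ⟨T, fun v hv => ⟨fun h => (hT v hv).1 (Ideal.mul_mem_right _ _ h),
      fun h => (hT v hv).1 (Ideal.mul_mem_left _ _ h)⟩, hTδ⟩
  · intro y hy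
    rintro ⟨T, hTc, -, hT⟩
    apply hy
    have hgood : ∀ v ∈ T, (d : 𝓞 K) ∉ v.asIdeal ∧ y 0 ∈ v.asIdeal ∧ y 0 ∉ v.asIdeal ^ 2 ∧
        IrrMod v d fun i => y i.succ := by
      intro v hv
      obtain ⟨h1, h2⟩ := hT v hv
      rw [Set.notMem_compl_iff] at h2
      obtain ⟨h3, h4, h5⟩ := Pool.Agent.TH377.Sup.good_iff v d y h2
      exact ⟨h1, h3, h4, h5⟩
    obtain ⟨v₀, hv₀⟩ : T.Nonempty := by
      rw [← Finset.card_pos, hTc]
      omega
    have hinj : Function.Injective (algebraMap (𝓞 K) K) := IsFractionRing.injective (𝓞 K) K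
    have hlast0 : y (Fin.last d).succ ≠ 0 := by
      intro h
      apply (hgood v₀ hv₀).2.2.2.1
      change y (Fin.last d).succ ∈ v₀.asIdeal
      rw [h]
      exact zero_mem _
    have hdegK : (pol fun i : Fin (d + 1) => algebraMap (𝓞 K) K (y i.succ)).natDegree = d := by
      apply Pool.Agent.TH377.Sup.pol_natDegree
      rw [Ne, map_eq_zero_iff _ hinj]
      exact hlast0
    refine ⟨?_, hdegK, ?_, ?_⟩
    · intro h
      apply (hgood v₀ hv₀).2.2.1
      rw [h]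
      exact zero_mem _
    · obtain ⟨-, -, -, hlast, hirr⟩ := hgood v₀ hv₀
      have h1 := irr_of_red v₀ (pol fun i : Fin (d + 1) => y i.succ) (by
        rw [Pool.Agent.TH377.Sup.pol_leadingCoeff (fun i : Fin (d + 1) => y i.succ) hlast0]
        exact hlast) (by
        rw [Pool.Agent.TH377.Sup.pol_map]
        exact hirr)
      rwa [Pool.Agent.TH377.Sup.pol_map] at h1
    · intro L _ _ _ ℓ hℓ hℓd hor
      by_contra hcon
      have hTsub : (T : Set (HeightOneSpectrum (𝓞 K))) ⊆ RamSet2 ℓ d K L := by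
        intro v hv w hw
        by_contra hram
        rw [not_or] at hram
        obtain ⟨h1, h2, h3, h4⟩ := hgood v hv
        exact hcon (fine_irr d hd v w h1 y h2 h3 h4 ℓ hℓ hℓd hram.1 hram.2)
      rcases hor with h | h
      · have h1 : (T : Set (HeightOneSpectrum (𝓞 K))).encard ≤ (RamSet2 ℓ d K L).encard :=
          Set.encard_le_encard hTsub
        rw [Set.encard_coe_eq_coe_finsetCard, hTc] at h1
        have h2 := h1.trans_lt h
        have h4 : M + 1 < M := by exact_mod_cast h2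
        omega
      · exact h (dvd_finrank2 ℓ d hℓd v₀ (hTsub hv₀))

end Pool.Agent.Q52.SecX
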