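import Pool.Agent.Q52.SecX.Dens
import Pool.Agent.Y157.PS.SupN
import Pool.Agent.Y674.PS.Fun

/-! The local theorem over finite extensions. -/

set_option autoImplicit false

namespace Pool.Agent.Q52.SecX

open Polynomial NumberField IsDedekindDomain WithZero
open Pool.Agent.Y157.PS (S_FUN FineP fineP num_loc)

theorem hFUN : S_FUN := Pool.Agent.Y674.PS.funct Pool.Agent.Y157.PS.a_inrt

section

variable {K L : Type} [Field K] [NumberField K] [Field L] [NumberField L] [Algebra K L]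

lemma card_le (v : HeightOneSpectrum (𝓞 K)) (w : HeightOneSpectrum (𝓞 L))
    [w.asIdeal.LiesOver v.asIdeal] (D : ℕ) (hD : Module.finrank K L ≤ D) :
    Nat.card (𝓞 L ⧸ w.asIdeal) ≤ Ideal.absNorm v.asIdeal ^ D := by
  have hvm : v.asIdeal.IsMaximal := v.isMaximal
  have hwp : w.asIdeal.IsPrime := w.isPrime
  let _ : Field (𝓞 K ⧸ v.asIdeal) := Ideal.Quotient.field _
  have h0 : Finite (𝓞 L ⧸ w.asIdeal) := Ideal.finiteQuotientOfFreeOfNeBot _ w.ne_bot
  have hf : Module.Finite (𝓞 K ⧸ v.asIdeal) (𝓞 L ⧸ w.asIdeal) := Module.Finite.of_finite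
  have h1 : Nat.card (𝓞 L ⧸ w.asIdeal) = Nat.card (𝓞 K ⧸ v.asIdeal) ^
      Module.finrank (𝓞 K ⧸ v.asIdeal) (𝓞 L ⧸ w.asIdeal) := Module.natCard_eq_pow_finrank
  have hnz : NoZeroSMulDivisors (𝓞 K) (𝓞 L) := ⟨fun {c x} h => by
    rw [Algebra.smul_def, mul_eq_zero,
      map_eq_zero_iff _ (FaithfulSMul.algebraMap_injective (𝓞 K) (𝓞 L))] at h
    exact h⟩
  have h2 := Ideal.inertiaDeg_le_finrank (𝓞 L) K L w.asIdeal v.ne_bot (p := v.asIdeal)
  rw [Ideal.inertiaDeg'_algebraMap] at h2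
  have h3 : Ideal.absNorm v.asIdeal = Nat.card (𝓞 K ⧸ v.asIdeal) := by
    rw [Ideal.absNorm_apply, Submodule.cardQuot_apply]
  rw [h1, h3]
  refine Nat.pow_le_pow_right ?_ (h2.trans hD)
  rw [← h3]
  exact Pool.Agent.W417.SecC.D2.norm_pos v

/-- the valuation of an element which is exactly divisible by `v` -/
lemma exact_ramification (v : HeightOneSpectrum (𝓞 K)) (w : HeightOneSpectrum (𝓞 L))
    [w.asIdeal.LiesOver v.asIdeal] (b : 𝓞 K) (hb : b ∈ v.asIdeal ^ 1) (hb' : b ∉ v.asIdeal ^ (1 + 1)) :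
    algebraMap (𝓞 K) (𝓞 L) b ∈ w.asIdeal ^ (v.asIdeal.ramificationIdx' w.asIdeal) ∧
      algebraMap (𝓞 K) (𝓞 L) b ∉ w.asIdeal ^ (v.asIdeal.ramificationIdx' w.asIdeal + 1) := by
  have h1 : v.intValuation b = exp (-((1 : ℕ) : ℤ)) := by
    apply le_antisymm
    · exact (v.intValuation_le_pow_iff_mem b 1).2 hb
    · by_contra h
      rw [not_le] at h
      apply hb'
      rw [← v.intValuation_le_pow_iff_mem]
      have h2 : b ≠ 0 := by
        rintro rfl
        exact hb' (zero_mem _)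
      have h3 : v.intValuation b ≠ 0 := v.intValuation_ne_zero b h2
      obtain ⟨z, hz⟩ : ∃ z : ℤ, v.intValuation b = exp z := ⟨log (v.intValuation b),
        (exp_log h3).symm⟩
      rw [hz, exp_lt_exp] at h
      rw [hz, exp_le_exp]
      push_cast at h ⊢
      omega
  have h2 := HeightOneSpectrum.intValuation_liesOver v w b
  rw [h1, ← exp_nsmul] at h2
  constructor
  · rw [← w.intValuation_le_pow_iff_mem, ← h2, exp_le_exp]
    simp
  · rw [← w.intValuation_le_pow_iff_mem, ← h2, exp_le_exp]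
    simp

/-- the local theorem at a good prime `v` with a place `w` of `L` above it -/
theorem fine_above (D : ℕ) (hD : Module.finrank K L ≤ D) (f : K[X]) (g : (𝓞 K)[X]) (c : 𝓞 K)
    (hc : c ≠ 0) (hgf : g.map (algebraMap (𝓞 K) K) = C (algebraMap (𝓞 K) K c) * f)
    (h3 : 3 ≤ f.natDegree) (v : HeightOneSpectrum (𝓞 K)) (w : HeightOneSpectrum (𝓞 L))
    [w.asIdeal.LiesOver v.asIdeal] (hv : Good D g (c * (f.natDegree : 𝓞 K)) v) (a : 𝓞 K)
    (ha : Exactly v a) (ℓ : ℕ) (hℓ : ℓ.Prime) (hℓd : ℓ ∣ f.natDegree)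
    (hram : ¬ ℓ ∣ v.asIdeal.ramificationIdx' w.asIdeal) :
    FineP ℓ (algebraMap K L (algebraMap (𝓞 K) K a)) (f.map (algebraMap K L)) := by
  classical
  obtain ⟨hcv', -, hlcv, hsv, hrv⟩ := hv
  obtain ⟨ha, ha'⟩ := ha
  have hvp : v.asIdeal.IsPrime := v.isPrime
  have hvm : v.asIdeal.IsMaximal := v.isMaximal
  have hwp : w.asIdeal.IsPrime := w.isPrime
  have hwm : w.asIdeal.IsMaximal := w.isMaximal
  have hcv : c ∉ v.asIdeal := fun h => hcv' (Ideal.mul_mem_right _ _ h)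
  have hover : v.asIdeal = w.asIdeal.under (𝓞 K) := Ideal.LiesOver.over
  have hmem : ∀ x : 𝓞 K, algebraMap (𝓞 K) (𝓞 L) x ∈ w.asIdeal ↔ x ∈ v.asIdeal := by
    intro x
    rw [hover]
    rfl
  have hinjKL : Function.Injective (algebraMap (𝓞 K) (𝓞 L)) :=
    FaithfulSMul.algebraMap_injective _ _
  have hinj : Function.Injective (algebraMap (𝓞 K) K) := IsFractionRing.injective (𝓞 K) K
  have hcK : algebraMap (𝓞 K) K c ≠ 0 := by
    rw [Ne, map_eq_zero_iff _ hinj]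
    exact hc
  have hcL : algebraMap K L (algebraMap (𝓞 K) K c) ≠ 0 := (_root_.map_ne_zero _).2 hcK
  have hdeg : g.natDegree = f.natDegree := by
    rw [← natDegree_map_eq_of_injective hinj g, hgf, natDegree_C_mul hcK]
  have hℓv : (ℓ : 𝓞 K) ∉ v.asIdeal := by
    intro h
    apply hcv'
    obtain ⟨n, hn⟩ := hℓd
    rw [hn]
    push_cast
    exact Ideal.mul_mem_left _ _ (Ideal.mul_mem_right _ _ h)
  have hℓw : (ℓ : 𝓞 L) ∉ w.asIdeal := by
    intro h
    apply hℓv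
    rw [← hmem, map_natCast]
    exact h
  set gL : (𝓞 L)[X] := g.map (algebraMap (𝓞 K) (𝓞 L)) with hgL
  have hdegL : gL.natDegree = f.natDegree := by
    rw [hgL, natDegree_map_eq_of_injective hinjKL, hdeg]
  have hlcw : gL.leadingCoeff ∉ w.asIdeal := by
    rw [hgL, leadingCoeff_map_of_injective hinjKL, hmem]
    exact hlcv
  let χ : 𝓞 K →+* 𝓞 L ⧸ w.asIdeal := (Ideal.Quotient.mk w.asIdeal).comp (algebraMap (𝓞 K) (𝓞 L))
  have hχ : RingHom.ker χ = v.asIdeal := by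
    ext x
    rw [RingHom.mem_ker, ← hmem]
    exact Ideal.Quotient.eq_zero_iff_mem
  have hmapL : gL.map (Ideal.Quotient.mk w.asIdeal) = g.map χ := by
    rw [hgL, Polynomial.map_map]
  have hsw : (gL.map (Ideal.Quotient.mk w.asIdeal)).Separable := by
    let θ : 𝓞 K ⧸ v.asIdeal →+* 𝓞 L ⧸ w.asIdeal := Ideal.Quotient.lift v.asIdeal χ (by
      intro x hx
      rw [← hχ, RingHom.mem_ker] at hx
      exact hx)
    have h1 : χ = θ.comp (Ideal.Quotient.mk v.asIdeal) := by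
      ext x
      rfl
    rw [hmapL, h1, ← Polynomial.map_map]
    exact hsv.map
  have hfinw : Finite (𝓞 L ⧸ w.asIdeal) := Ideal.finiteQuotientOfFreeOfNeBot _ w.ne_bot
  have hrw : ∀ r : 𝓞 L ⧸ w.asIdeal, (gL.map (Ideal.Quotient.mk w.asIdeal)).eval r ≠ 0 := by
    intro r
    rw [hmapL]
    let _ : Field (𝓞 L ⧸ w.asIdeal) := Ideal.Quotient.field _
    exact hrv (𝓞 L ⧸ w.asIdeal) χ hχ (card_le v w D hD) r
  have hb : c * a ∈ v.asIdeal ^ 1 := by
    rw [pow_one]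
    exact Ideal.mul_mem_left _ _ ha
  have hb' : c * a ∉ v.asIdeal ^ (1 + 1) := by
    intro h
    rcases Ideal.IsMaximal.mul_mem_pow _ h with h1 | h1
    · exact hcv h1
    · exact ha' h1
  obtain ⟨hb2, hb2'⟩ := exact_ramification v w (c * a) hb hb'
  have hfact : Fact ℓ.Prime := ⟨hℓ⟩
  obtain ⟨A, _, _, _, _, hfin, hfr, hℓA, fA, hfK, hdegA, hlcA, hsA, hrA, ϖ, t, hϖ, ht, hbt⟩ :=
    num_loc w ℓ hℓw gL hlcw hsw hrw (algebraMap (𝓞 K) (𝓞 L) (c * a)) _ hb2 hb2'
  have key := fineP hFUN hℓA fA hlcA hsA (by rw [hdegA, hdegL]; exact hℓd)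
    (by rw [hdegA, hdegL]; exact h3) hrA ϖ hϖ
    (algebraMap (𝓞 L) L (algebraMap (𝓞 K) (𝓞 L) (c * a)))
    ((v.asIdeal.ramificationIdx' w.asIdeal : ℕ) : ℤ) (by
      intro h
      exact hram (by exact_mod_cast h)) t ht hbt
  have h4 : ∀ x : 𝓞 K, algebraMap (𝓞 L) L (algebraMap (𝓞 K) (𝓞 L) x) =
      algebraMap K L (algebraMap (𝓞 K) K x) := by
    intro x
    rw [← IsScalarTower.algebraMap_apply (𝓞 K) (𝓞 L) L, ← IsScalarTower.algebraMap_apply (𝓞 K) K L]
  have h5 : fA.map (algebraMap A L) = C (algebraMap K L (algebraMap (𝓞 K) K c)) *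
      f.map (algebraMap K L) := by
    rw [hfK, hgL, Polynomial.map_map]
    have h6 : (algebraMap (𝓞 L) L).comp (algebraMap (𝓞 K) (𝓞 L)) =
        (algebraMap K L).comp (algebraMap (𝓞 K) K) := RingHom.ext h4
    rw [h6, ← Polynomial.map_map, hgf, Polynomial.map_mul, map_C]
  rw [h5, h4, map_mul, map_mul] at key
  exact key.scale hcL

end

/-- the primes of `K` all of whose ramification indices in `L` are divisible by `ℓ` -/
def RamSet (ℓ : ℕ) (K L : Type) [Field K] [NumberField K] [Field L] [NumberField L]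
    [Algebra K L] : Set (HeightOneSpectrum (𝓞 K)) :=
  {v | ∀ w : HeightOneSpectrum (𝓞 L), w.asIdeal.LiesOver v.asIdeal →
    ℓ ∣ v.asIdeal.ramificationIdx' w.asIdeal}

/-- If there is a prime in `RamSet` then the degree is divisible by `ℓ`. -/
lemma dvd_finrank {K L : Type} [Field K] [NumberField K] [Field L] [NumberField L] [Algebra K L]
    (ℓ : ℕ) (v : HeightOneSpectrum (𝓞 K)) (hv : v ∈ RamSet ℓ K L) : ℓ ∣ Module.finrank K L := by
  have hvm : v.asIdeal.IsMaximal := v.isMaximal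
  rw [← Ideal.sum_ramification_inertia (𝓞 L) K L v.ne_bot (p := v.asIdeal)]
  refine Finset.dvd_sum fun P hP => ?_
  rw [IsDedekindDomain.mem_primesOverFinset_iff v.ne_bot] at hP
  have hPp : P.IsPrime := hP.1
  have hPo : P.LiesOver v.asIdeal := hP.2
  have hP0 : P ≠ ⊥ := Ideal.ne_bot_of_liesOver_of_ne_bot v.ne_bot P
  exact Dvd.dvd.mul_right (hv ⟨P, hPp, hP0⟩ hPo) _

/-- the main theorem over number fields -/
theorem main {K : Type} [Field K] [NumberField K] (f : K[X]) (hf : f.Separable)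
    (h3 : 3 ≤ f.natDegree) (D : ℕ)
    (hσ : ∃ σ : AlgebraicClosure K ≃ₐ[K] AlgebraicClosure K, ∀ j, 1 ≤ j → j ≤ D →
      ∀ θ : AlgebraicClosure K, aeval θ f = 0 → (σ ^ j) θ ≠ θ)
    (M : ℕ) (ε : ℝ) (hε : 0 < ε) :
    Small {a : 𝓞 K | ¬ ∀ (L : Type) [Field L] [NumberField L] [Algebra K L],
      Module.finrank K L ≤ D → ∀ ℓ : ℕ, ℓ.Prime → ℓ ∣ f.natDegree →
        ((RamSet ℓ K L).encard < M ∨ ¬ ℓ ∣ Module.finrank K L) →
        FineP ℓ (algebraMap K L (algebraMap (𝓞 K) K a)) (f.map (algebraMap K L))} ε := by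
  classical
  obtain ⟨c, hc, hcf⟩ := IsLocalization.integerNormalization_spec (nonZeroDivisors (𝓞 K)) f
  set g := IsLocalization.integerNormalization (nonZeroDivisors (𝓞 K)) f with hg
  have hc0 : c ≠ 0 := nonZeroDivisors.ne_zero hc
  have hinj : Function.Injective (algebraMap (𝓞 K) K) := IsFractionRing.injective (𝓞 K) K
  have hcK : algebraMap (𝓞 K) K c ≠ 0 := by
    rw [Ne, map_eq_zero_iff _ hinj]
    exact hc0
  have hgf : g.map (algebraMap (𝓞 K) K) = C (algebraMap (𝓞 K) K c) * f := by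
    rw [hcf]
    ext i
    rw [coeff_smul, coeff_C_mul, Algebra.smul_def]
  have hgs : (g.map (algebraMap (𝓞 K) K)).Separable := by
    rw [hgf]
    exact Separable.unit_mul (isUnit_C.2 hcK.isUnit) hf
  have hgσ : ∃ σ : AlgebraicClosure K ≃ₐ[K] AlgebraicClosure K, ∀ j, 1 ≤ j → j ≤ D →
      ∀ θ : AlgebraicClosure K, aeval θ (g.map (algebraMap (𝓞 K) K)) = 0 → (σ ^ j) θ ≠ θ := by
    obtain ⟨σ, hσ⟩ := hσ
    refine ⟨σ, fun j h1 h2 θ hθ => hσ j h1 h2 θ ?_⟩
    rw [hgf, map_mul, aeval_C] at hθ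
    exact (mul_eq_zero.1 hθ).resolve_left ((_root_.map_ne_zero _).2 hcK)
  have hdc : c * (f.natDegree : 𝓞 K) ≠ 0 := by
    refine mul_ne_zero hc0 ?_
    rw [Nat.cast_ne_zero]
    omega
  refine (many_good g (c * (f.natDegree : 𝓞 K)) hdc hgs D hgσ (M + 1) ε hε).mono ?_ le_rfl
  intro a ha
  rintro ⟨T, hTc, hT⟩
  apply ha
  intro L _ _ _ hL ℓ hℓ hℓd hor
  by_contra hcon
  have hTsub : (T : Set (HeightOneSpectrum (𝓞 K))) ⊆ RamSet ℓ K L := by
    intro v hv w hw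
    by_contra hram
    exact hcon (fine_above D hL f g c hc0 hgf h3 v w (hT v hv).1 a (hT v hv).2 ℓ hℓ hℓd hram)
  rcases hor with h | h
  · have h1 : (T : Set (HeightOneSpectrum (𝓞 K))).encard ≤ (RamSet ℓ K L).encard :=
      Set.encard_le_encard hTsub
    rw [Set.encard_coe_eq_coe_finsetCard, hTc] at h1
    have h2 := h1.trans_lt h
    have h4 : M + 1 < M := by exact_mod_cast h2
    omega
  · obtain ⟨v, hv⟩ : T.Nonempty := by
      rw [← Finset.card_pos, hTc]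
      omega
    exact h (dvd_finrank ℓ v (hTsub hv))

end Pool.Agent.Q52.SecX
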