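import Pool.Agent.Q52.SecX.Prm
import Pool.Agent.W417.SecC.D2

/-! Almost all integers are divisible exactly once by many primes of a Chebotarev set. -/

set_option autoImplicit false

namespace Pool.Agent.Q52.SecX

open Polynomial NumberField IsDedekindDomain

/-- `E` lies in at most `ε #(R/I)` residue classes modulo some ideal `I ≠ 0` of finite index -/
def Small {R : Type} [CommRing R] (E : Set R) (ε : ℝ) : Prop :=
  ∃ I : Ideal R, I ≠ ⊥ ∧ Finite (R ⧸ I) ∧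
    (Set.ncard ((Ideal.Quotient.mk I) '' E) : ℝ) ≤ ε * Nat.card (R ⧸ I)

lemma Small.mono {R : Type} [CommRing R] {E E' : Set R} {ε ε' : ℝ} (h : Small E ε) (hE : E' ⊆ E)
    (hε : ε ≤ ε') : Small E' ε' := by
  obtain ⟨I, h1, h2, h3⟩ := h
  refine ⟨I, h1, h2, ?_⟩
  have h4 : Set.ncard ((Ideal.Quotient.mk I) '' E') ≤ Set.ncard ((Ideal.Quotient.mk I) '' E) :=
    Set.ncard_le_ncard (Set.image_mono hE) (Set.toFinite _)
  calc (Set.ncard ((Ideal.Quotient.mk I) '' E') : ℝ) ≤ _ := by exact_mod_cast h4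
    _ ≤ _ := h3
    _ ≤ _ := mul_le_mul_of_nonneg_right hε (Nat.cast_nonneg _)

/-- passing to a smaller ideal -/
lemma ncard_refine {R : Type} [CommRing R] (I J : Ideal R) (hIJ : I ≤ J) [Finite (R ⧸ I)]
    [Finite (R ⧸ J)] (E : Set R) :
    Set.ncard ((Ideal.Quotient.mk I) '' E) * Nat.card (R ⧸ J) ≤
      Set.ncard ((Ideal.Quotient.mk J) '' E) * Nat.card (R ⧸ I) := by
  classical
  have := Fintype.ofFinite (R ⧸ I)
  have := Fintype.ofFinite (R ⧸ J)
  let q : R ⧸ I →+* R ⧸ J := Ideal.Quotient.factor hIJ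
  have hq : Function.Surjective q := Ideal.Quotient.factor_surjective hIJ
  have hqmk : ∀ x, q (Ideal.Quotient.mk I x) = Ideal.Quotient.mk J x := fun x => rfl
  set k := (Finset.univ.filter fun x : R ⧸ I => q x = 0).card with hk
  have hfib : ∀ y : R ⧸ J, (Finset.univ.filter fun x : R ⧸ I => q x = y).card = k := by
    intro y
    exact AddMonoidHom.card_fiber_eq_of_mem_range (f := q.toAddMonoidHom)
      ⟨(hq y).choose, (hq y).choose_spec⟩ ⟨0, map_zero q⟩
  have h1 : Fintype.card (R ⧸ I) = Fintype.card (R ⧸ J) * k := by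
    rw [← Finset.card_univ, Finset.card_eq_sum_card_fiberwise (f := q) (t := Finset.univ)
      (fun x _ => Finset.mem_univ _)]
    rw [Finset.sum_congr rfl fun y _ => hfib y, Finset.sum_const, Finset.card_univ, smul_eq_mul]
  have h2 : Set.ncard ((Ideal.Quotient.mk I) '' E) ≤
      Set.ncard ((Ideal.Quotient.mk J) '' E) * k := by
    rw [Set.ncard_eq_toFinset_card', Set.ncard_eq_toFinset_card']
    rw [Finset.card_eq_sum_card_fiberwise (f := q) (t := ((Ideal.Quotient.mk J) '' E).toFinset)]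
    · calc _ ≤ ∑ b ∈ ((Ideal.Quotient.mk J) '' E).toFinset, k := by
            refine Finset.sum_le_sum fun b _ => ?_
            rw [← hfib b]
            exact Finset.card_le_card (Finset.filter_subset_filter _ (Finset.subset_univ _))
        _ = _ := by rw [Finset.sum_const, smul_eq_mul]
    · intro x hx
      rw [Finset.mem_coe, Set.mem_toFinset] at hx ⊢
      obtain ⟨e, he, rfl⟩ := hx
      exact ⟨e, he, (hqmk e).symm⟩
  rw [Nat.card_eq_fintype_card, Nat.card_eq_fintype_card, h1]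
  calc _ ≤ (Set.ncard ((Ideal.Quotient.mk J) '' E) * k) * Fintype.card (R ⧸ J) :=
        Nat.mul_le_mul_right _ h2
    _ = _ := by ring

lemma Small.union {K : Type} [Field K] [NumberField K] {E E' : Set (𝓞 K)} {ε ε' : ℝ}
    (h : Small E ε) (h' : Small E' ε') : Small (E ∪ E') (ε + ε') := by
  obtain ⟨I, h1, h2, h3⟩ := h
  obtain ⟨J, h1', h2', h3'⟩ := h'
  have hIJ : I * J ≠ ⊥ := mul_ne_zero h1 h1'
  have hfin : Finite (𝓞 K ⧸ I * J) := Ideal.finiteQuotientOfFreeOfNeBot _ hIJ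
  refine ⟨I * J, hIJ, hfin, ?_⟩
  have key : ∀ (A : Ideal (𝓞 K)) (F : Set (𝓞 K)) (δ : ℝ), I * J ≤ A → Finite (𝓞 K ⧸ A) →
      (Set.ncard ((Ideal.Quotient.mk A) '' F) : ℝ) ≤ δ * Nat.card (𝓞 K ⧸ A) →
      (Set.ncard ((Ideal.Quotient.mk (I * J)) '' F) : ℝ) ≤ δ * Nat.card (𝓞 K ⧸ I * J) := by
    intro A F δ hA hfA hF
    have h5 := ncard_refine (I * J) A hA F
    have h6 : (0 : ℝ) < Nat.card (𝓞 K ⧸ A) := by exact_mod_cast Nat.card_pos
    have h7 : (Set.ncard ((Ideal.Quotient.mk (I * J)) '' F) : ℝ) * Nat.card (𝓞 K ⧸ A) ≤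
        Set.ncard ((Ideal.Quotient.mk A) '' F) * Nat.card (𝓞 K ⧸ I * J) := by exact_mod_cast h5
    have h8 : (0 : ℝ) ≤ Nat.card (𝓞 K ⧸ I * J) := Nat.cast_nonneg _
    have h9 := h7.trans (mul_le_mul_of_nonneg_right hF h8)
    have h10 : (Set.ncard ((Ideal.Quotient.mk (I * J)) '' F) : ℝ) * Nat.card (𝓞 K ⧸ A) ≤
        (δ * Nat.card (𝓞 K ⧸ I * J)) * Nat.card (𝓞 K ⧸ A) := by linarith
    exact le_of_mul_le_mul_right h10 h6
  rw [Set.image_union]
  have h4 : (Set.ncard ((Ideal.Quotient.mk (I * J)) '' E ∪ (Ideal.Quotient.mk (I * J)) '' E') : ℝ) ≤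
      Set.ncard ((Ideal.Quotient.mk (I * J)) '' E) + Set.ncard ((Ideal.Quotient.mk (I * J)) '' E') := by
    exact_mod_cast Set.ncard_union_le _ _
  rw [add_mul]
  exact h4.trans (add_le_add (key I E ε (Ideal.mul_le_inf.trans inf_le_left) h2 h3)
    (key J E' ε' (Ideal.mul_le_inf.trans inf_le_right) h2' h3'))

section

variable {K : Type} [Field K] [NumberField K]

/-- `v` divides `a` exactly once -/
def Exactly (v : HeightOneSpectrum (𝓞 K)) (a : 𝓞 K) : Prop :=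
  a ∈ v.asIdeal ∧ a ∉ v.asIdeal ^ 2

/-- the properties of the primes -/
def Good (D : ℕ) (g : (𝓞 K)[X]) (c : 𝓞 K) (v : HeightOneSpectrum (𝓞 K)) : Prop :=
  c ∉ v.asIdeal ∧ (2 : 𝓞 K) ∉ v.asIdeal ∧ g.leadingCoeff ∉ v.asIdeal ∧
    (g.map (Ideal.Quotient.mk v.asIdeal)).Separable ∧ NoSmallRoot D g v

/-- If there are finite sets of primes with property `P`, disjoint from any given finite set, with
small products, then almost all integers are exactly divisible by `M` primes with property `P`. -/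
theorem many_exact (P : HeightOneSpectrum (𝓞 K) → Prop)
    (hP : ∀ c : 𝓞 K, c ≠ 0 → ∀ ε : ℝ, 0 < ε → ∃ T : Finset (HeightOneSpectrum (𝓞 K)),
      (∀ v ∈ T, c ∉ v.asIdeal ∧ P v) ∧
      ∏ v ∈ T, (1 - (1 / (Ideal.absNorm v.asIdeal : ℝ) -
        1 / (Ideal.absNorm v.asIdeal : ℝ) ^ 2)) < ε) (M : ℕ) :
    ∀ (S : Finset (HeightOneSpectrum (𝓞 K))) (ε : ℝ), 0 < ε →
      Small {a : 𝓞 K | ¬ ∃ T : Finset (HeightOneSpectrum (𝓞 K)), T.card = M ∧ Disjoint T S ∧
        ∀ v ∈ T, P v ∧ Exactly v a} ε := by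
  classical
  induction M with
  | zero =>
    intro S ε hε
    refine ⟨⊤, ?_, ?_, ?_⟩
    · exact top_ne_bot
    · infer_instance
    · have h1 : {a : 𝓞 K | ¬ ∃ T : Finset (HeightOneSpectrum (𝓞 K)), T.card = 0 ∧ Disjoint T S ∧
          ∀ v ∈ T, P v ∧ Exactly v a} = ∅ := by
        rw [Set.eq_empty_iff_forall_notMem]
        intro a ha
        exact ha ⟨∅, Finset.card_empty, Finset.disjoint_empty_left _, by simp⟩
      rw [h1, Set.image_empty, Set.ncard_empty, Nat.cast_zero]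
      exact mul_nonneg hε.le (Nat.cast_nonneg _)
  | succ M ih =>
    intro S ε hε
    have hcS : ∃ c : 𝓞 K, c ≠ 0 ∧ ∀ v ∈ S, c ∈ v.asIdeal := by
      refine ⟨∏ v ∈ S, (Ideal.absNorm v.asIdeal : 𝓞 K), ?_, ?_⟩
      · refine Finset.prod_ne_zero_iff.2 fun v _ => ?_
        rw [Nat.cast_ne_zero]
        exact (Pool.Agent.W417.SecC.D2.norm_pos v).ne'
      · intro v hv
        rw [← Finset.mul_prod_erase _ _ hv]
        exact Ideal.mul_mem_right _ _ (Ideal.absNorm_mem _)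
    obtain ⟨c, hc0, hcS⟩ := hcS
    obtain ⟨T₀, hT₀, hprod⟩ := hP c hc0 (ε / 2) (by positivity)
    have hE : Small {a : 𝓞 K | ∀ v ∈ T₀, ¬ Exactly v a} (ε / 2) := by
      refine ⟨∏ v ∈ T₀, v.asIdeal ^ 2, ?_, ?_, ?_⟩
      · exact Finset.prod_ne_zero_iff.2 fun v _ => pow_ne_zero _ v.ne_bot
      · exact Ideal.finiteQuotientOfFreeOfNeBot _
          (Finset.prod_ne_zero_iff.2 fun v _ => pow_ne_zero _ v.ne_bot)
      · have h1 := Pool.Agent.W417.SecC.D2.partD2 K T₀ {a : 𝓞 K | ∀ v ∈ T₀, ¬ Exactly v a} (by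
            intro a ha v hv hav
            by_contra hcon
            exact ha v hv ⟨hav, hcon⟩)
        exact h1.trans (mul_le_mul_of_nonneg_right hprod.le (Nat.cast_nonneg _))
    refine (hE.union (ih (S ∪ T₀) (ε / 2) (by positivity))).mono ?_ (by linarith)
    intro a ha
    by_contra hcon
    rw [Set.mem_union, not_or] at hcon
    obtain ⟨h1, h2⟩ := hcon
    simp only [Set.mem_ofPred_eq, not_forall, not_not, exists_prop] at h1 h2
    obtain ⟨v₀, hv₀, hex⟩ := h1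
    obtain ⟨T, hTc, hTd, hT⟩ := h2
    apply ha
    have hv₀T : v₀ ∉ T := fun h =>
      (Finset.disjoint_left.1 hTd h) (Finset.mem_union_right _ hv₀)
    refine ⟨insert v₀ T, ?_, ?_, ?_⟩
    · rw [Finset.card_insert_of_notMem hv₀T, hTc]
    · rw [Finset.disjoint_insert_left]
      refine ⟨fun h => (hT₀ v₀ hv₀).1 (hcS v₀ h), ?_⟩
      exact hTd.mono_right Finset.subset_union_left
    · intro v hv
      rcases Finset.mem_insert.1 hv with rfl | hv
      · exact ⟨(hT₀ v hv₀).2, hex⟩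
      · exact hT v hv

theorem many_good (g : (𝓞 K)[X]) (c : 𝓞 K) (hc : c ≠ 0)
    (hsep : (g.map (algebraMap (𝓞 K) K)).Separable) (D : ℕ)
    (hσ : ∃ σ : AlgebraicClosure K ≃ₐ[K] AlgebraicClosure K, ∀ j, 1 ≤ j → j ≤ D →
      ∀ θ : AlgebraicClosure K, aeval θ (g.map (algebraMap (𝓞 K) K)) = 0 → (σ ^ j) θ ≠ θ)
    (M : ℕ) (ε : ℝ) (hε : 0 < ε) :
    Small {a : 𝓞 K | ¬ ∃ T : Finset (HeightOneSpectrum (𝓞 K)), T.card = M ∧
        ∀ v ∈ T, Good D g c v ∧ Exactly v a} ε := by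
  refine (many_exact (Good D g c) ?_ M ∅ ε hε).mono ?_ le_rfl
  · intro c' hc' δ hδ
    obtain ⟨T, hT, hTδ⟩ := primesD K g (c * c') (mul_ne_zero hc hc') hsep D hσ δ hδ
    refine ⟨T, fun v hv => ?_, hTδ⟩
    obtain ⟨h1, h2, h3, h4, h5⟩ := hT v hv
    exact ⟨fun h => h1 (Ideal.mul_mem_left _ _ h), fun h => h1 (Ideal.mul_mem_right _ _ h), h2, h3,
      h4, h5⟩
  · intro a ha
    rintro ⟨T, h1, -, h2⟩
    exact ha ⟨T, h1, h2⟩

end

end Pool.Agent.Q52.SecX
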