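import Pool.Agent.Q52.SecX.Loc
import Pool.Agent.Y141.PS.FG

/-! Extensions with embeddings in the completions. -/

set_option autoImplicit false

namespace Pool.Agent.Q52.SecX

open Polynomial NumberField IsDedekindDomain WithZero Pool.Agent.W858.SF Pool.Agent.W858.SG
open Pool.Agent.Y157.PS (S_FUN FineP fineP num_loc)
open Pool.Agent.Y141.PS (fineP_emb)

/-- the local theorem for a field `L` with an embedding in the completion of `K` at `v` -/
theorem fine_emb {K : Type} [Field K] [NumberField K] {L : Type} [Field L] [Algebra K L]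
    (f : K[X]) (g : (𝓞 K)[X]) (c : 𝓞 K)
    (hc : c ≠ 0) (hgf : g.map (algebraMap (𝓞 K) K) = C (algebraMap (𝓞 K) K c) * f)
    (h3 : 3 ≤ f.natDegree) (v : HeightOneSpectrum (𝓞 K))
    (hv : Good 1 g (c * (f.natDegree : 𝓞 K)) v) (a : 𝓞 K)
    (ha : Exactly v a) (ℓ : ℕ) (hℓ : ℓ.Prime) (hℓd : ℓ ∣ f.natDegree)
    (ψ : L →ₐ[K] v.adicCompletion K) :
    FineP ℓ (algebraMap K L (algebraMap (𝓞 K) K a)) (f.map (algebraMap K L)) := by
  classical
  obtain ⟨hcv', -, hlcv, hsv, hrv⟩ := hv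
  obtain ⟨ha, ha'⟩ := ha
  have hvp : v.asIdeal.IsPrime := v.isPrime
  have hvm : v.asIdeal.IsMaximal := v.isMaximal
  have hcz : CharZero L := charZero_of_injective_algebraMap (algebraMap K L).injective
  have hcv : c ∉ v.asIdeal := fun h => hcv' (Ideal.mul_mem_right _ _ h)
  have hinj : Function.Injective (algebraMap (𝓞 K) K) := IsFractionRing.injective (𝓞 K) K
  have hcK : algebraMap (𝓞 K) K c ≠ 0 := by
    rw [Ne, map_eq_zero_iff _ hinj]
    exact hc
  have hcL : algebraMap K L (algebraMap (𝓞 K) K c) ≠ 0 := (_root_.map_ne_zero _).2 hcK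
  have hdeg : g.natDegree = f.natDegree := by
    rw [← natDegree_map_eq_of_injective hinj g, hgf, natDegree_C_mul hcK]
  have hℓv : (ℓ : 𝓞 K) ∉ v.asIdeal := by
    intro h
    apply hcv'
    obtain ⟨n, hn⟩ := hℓd
    rw [hn]
    push_cast
    exact Ideal.mul_mem_left _ _ (Ideal.mul_mem_right _ _ h)
  have hb : c * a ∈ v.asIdeal ^ 1 := by
    rw [pow_one]
    exact Ideal.mul_mem_left _ _ ha
  have hb' : c * a ∉ v.asIdeal ^ 2 := by
    intro h
    rcases Ideal.IsMaximal.mul_mem_pow _ h with h1 | h1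
    · exact hcv h1
    · exact ha' h1
  let _ : Algebra (𝓞 K) L := ((algebraMap K L).comp (algebraMap (𝓞 K) K)).toAlgebra
  have hmapL : ∀ x : 𝓞 K, algebraMap (𝓞 K) L x = algebraMap K L (algebraMap (𝓞 K) K x) :=
    fun x => rfl
  have hinjL : Function.Injective (algebraMap (𝓞 K) L) := by
    intro x y hxy
    exact hinj ((algebraMap K L).injective hxy)
  have hfact : Fact ℓ.Prime := ⟨hℓ⟩
  have hfinv : Finite (𝓞 K ⧸ v.asIdeal) := Ideal.finiteQuotientOfFreeOfNeBot _ v.ne_bot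
  have key := fineP_emb hFUN v (k := L) hinjL (algebraMap (𝓞 K) K) (ψ : L →+* v.adicCompletion K)
    (fun r => v.valuation_le_one r) (fun r => by
      have h1 : (ψ : L →+* v.adicCompletion K) (algebraMap (𝓞 K) L r) =
          algebraMap K (v.adicCompletion K) (algebraMap (𝓞 K) K r) := by
        rw [hmapL]
        exact ψ.commutes _
      rw [h1, sub_self, map_zero]
      exact zero_le) hℓv g 1 (fun h => hvp.ne_top ((Ideal.eq_top_iff_one _).2 h)) g
    (by rw [map_one, map_one, one_mul]) rfl hlcv hsv (fun r => by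
      let _ : Field (𝓞 K ⧸ v.asIdeal) := Ideal.Quotient.field _
      refine hrv (𝓞 K ⧸ v.asIdeal) (Ideal.Quotient.mk v.asIdeal) Ideal.mk_ker ?_ r
      rw [pow_one, Ideal.absNorm_apply, Submodule.cardQuot_apply]) (by rwa [hdeg]) (by rwa [hdeg])
    (c * a) (by
      apply le_antisymm
      · rw [HeightOneSpectrum.valuation_of_algebraMap]
        exact (v.intValuation_le_pow_iff_mem (c * a) 1).2 hb
      · by_contra h2
        rw [not_le] at h2
        apply hb'
        rw [← val_le_iff]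
        exact lt_exp_neg_one _ h2)
  have h5 : g.map (algebraMap (𝓞 K) L) = C (algebraMap K L (algebraMap (𝓞 K) K c)) *
      f.map (algebraMap K L) := by
    have h6 : algebraMap (𝓞 K) L = (algebraMap K L).comp (algebraMap (𝓞 K) K) := rfl
    rw [h6, ← Polynomial.map_map, hgf, Polynomial.map_mul, map_C]
  rw [h5, hmapL, map_mul, map_mul] at key
  exact key.scale hcL

/-- the primes of `K` at which `L` has no embedding in the completion -/
def NoEmb (K L : Type) [Field K] [NumberField K] [Field L] [Algebra K L] :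
    Set (HeightOneSpectrum (𝓞 K)) :=
  {v | IsEmpty (L →ₐ[K] v.adicCompletion K)}

theorem main_emb {K : Type} [Field K] [NumberField K] (f : K[X]) (hf : f.Separable)
    (h3 : 3 ≤ f.natDegree)
    (hσ : ∃ σ : AlgebraicClosure K ≃ₐ[K] AlgebraicClosure K,
      ∀ θ : AlgebraicClosure K, aeval θ f = 0 → σ θ ≠ θ)
    (M : ℕ) (ε : ℝ) (hε : 0 < ε) :
    Small {a : 𝓞 K | ¬ ∀ (L : Type) [Field L] [Algebra K L],
      (NoEmb K L).encard ≤ M → ∀ ℓ : ℕ, ℓ.Prime → ℓ ∣ f.natDegree →
        FineP ℓ (algebraMap K L (algebraMap (𝓞 K) K a)) (f.map (algebraMap K L))} ε := by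
  classical
  obtain ⟨c, hc, hcf⟩ := IsLocalization.integerNormalization_spec (nonZeroDivisors (𝓞 K)) f
  set g := IsLocalization.integerNormalization (nonZeroDivisors (𝓞 K)) f with hg
  have hc0 : c ≠ 0 := nonZeroDivisors.ne_zero hc
  have hinj : Function.Injective (algebraMap (𝓞 K) K) := IsFractionRing.injective (𝓞 K) K
  have hcK : algebraMap (𝓞 K) K c ≠ 0 := by
    rw [Ne, map_eq_zero_iff _ hinj]
    exact hc0
  have hgf : g.map (algebraMap (𝓞 K) K) = C (algebraMap (𝓞 K) K c) * f := by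
    rw [hcf]
    ext i
    rw [coeff_smul, coeff_C_mul, Algebra.smul_def]
  have hgs : (g.map (algebraMap (𝓞 K) K)).Separable := by
    rw [hgf]
    exact Separable.unit_mul (isUnit_C.2 hcK.isUnit) hf
  have hgσ : ∃ σ : AlgebraicClosure K ≃ₐ[K] AlgebraicClosure K, ∀ j, 1 ≤ j → j ≤ 1 →
      ∀ θ : AlgebraicClosure K, aeval θ (g.map (algebraMap (𝓞 K) K)) = 0 → (σ ^ j) θ ≠ θ := by
    obtain ⟨σ, hσ⟩ := hσ
    refine ⟨σ, fun j h1 h2 θ hθ => ?_⟩
    have hj : j = 1 := by omega
    rw [hj, pow_one]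
    refine hσ θ ?_
    rw [hgf, map_mul, aeval_C] at hθ
    exact (mul_eq_zero.1 hθ).resolve_left ((_root_.map_ne_zero _).2 hcK)
  have hdc : c * (f.natDegree : 𝓞 K) ≠ 0 := by
    refine mul_ne_zero hc0 ?_
    rw [Nat.cast_ne_zero]
    omega
  refine (many_good g (c * (f.natDegree : 𝓞 K)) hdc hgs 1 hgσ (M + 1) ε hε).mono ?_ le_rfl
  intro a ha
  rintro ⟨T, hTc, hT⟩
  apply ha
  intro L _ _ hL ℓ hℓ hℓd
  by_contra hcon
  have hTsub : (T : Set (HeightOneSpectrum (𝓞 K))) ⊆ NoEmb K L := by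
    intro v hv
    refine ⟨fun ψ => hcon ?_⟩
    exact fine_emb f g c hc0 hgf h3 v (hT v hv).1 a (hT v hv).2 ℓ hℓ hℓd ψ
  have h1 : (T : Set (HeightOneSpectrum (𝓞 K))).encard ≤ (NoEmb K L).encard :=
    Set.encard_le_encard hTsub
  rw [Set.encard_coe_eq_coe_finsetCard, hTc] at h1
  have h2 := h1.trans hL
  have h4 : M + 1 ≤ M := by exact_mod_cast h2
  omega

end Pool.Agent.Q52.SecX
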