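import Pool.Agent.W723.SecC.D1d

/-! Many primes modulo which a polynomial has no root of degree at most `D`. -/

set_option autoImplicit false

namespace Pool.Agent.Q52.SecX

open Polynomial NumberField IsDedekindDomain
open Pool.Agent.W401.Cheb Pool.Agent.W723.SecC

lemma exists_LD_aux (Ω : Type) [Field Ω] [Algebra ℚ Ω] [IsAlgClosure ℚ Ω] [IsAlgClosed Ω]
    [IsGalois ℚ Ω]
    (K : Type) [Field K] [NumberField K] (f : K[X]) (hf : f ≠ 0)
    (σ : AlgebraicClosure K ≃ₐ[K] AlgebraicClosure K) :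
    ∃ (L : Type) (_ : Field L) (_ : NumberField L) (_ : IsGalois ℚ L) (i : K →+* L)
      (τ : L ≃ₐ[ℚ] L), (∀ x, τ (i x) = i x) ∧
        (∀ j : ℕ, (∀ θ : AlgebraicClosure K, aeval θ f = 0 → (σ ^ j) θ ≠ θ) →
          ∀ θ, f.eval₂ i θ = 0 → (τ ^ j) θ ≠ θ) ∧
        (f.map i).Splits := by
  classical
  have : Algebra.IsAlgebraic ℚ (AlgebraicClosure K) := Algebra.IsAlgebraic.trans ℚ K _
  have : IsAlgClosure ℚ (AlgebraicClosure K) := ⟨inferInstance, inferInstance⟩
  let e : AlgebraicClosure K ≃ₐ[ℚ] Ω := IsAlgClosure.equiv ℚ (AlgebraicClosure K) Ω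
  let j : K →ₐ[ℚ] Ω := (e : AlgebraicClosure K →ₐ[ℚ] Ω).comp
    ((Algebra.ofId K (AlgebraicClosure K)).restrictScalars ℚ)
  have hj : ∀ x, j x = e (algebraMap K (AlgebraicClosure K) x) := fun x => rfl
  let τ₀ : Ω ≃ₐ[ℚ] Ω := e.symm.trans ((σ.restrictScalars ℚ).trans e)
  have hτ₀ : ∀ x, τ₀ x = e (σ (e.symm x)) := fun x => rfl
  let b := Module.finBasis ℚ K
  let s : Set Ω := (Set.range fun k => j (b k)) ∪ {θ : Ω | (f.map (j : K →+* Ω)).IsRoot θ}
  have hs : s.Finite := by
    refine (Set.finite_range _).union ?_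
    have h0 : f.map (j : K →+* Ω) ≠ 0 := by
      rwa [Ne, Polynomial.map_eq_zero]
    exact Polynomial.finite_setOfPred_isRoot h0
  have : Finite s := hs
  let LL := FiniteGaloisIntermediateField.adjoin ℚ s
  have hsub : s ⊆ LL.toIntermediateField := FiniteGaloisIntermediateField.subset_adjoin ℚ s
  let L := LL.toIntermediateField
  have hjL : ∀ x, j x ∈ L := by
    intro x
    rw [← b.sum_repr x, map_sum]
    refine sum_mem fun k _ => ?_
    rw [map_smul]
    exact L.smul_mem (hsub (Or.inl ⟨k, rfl⟩))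
  have hEq : (DivisionRing.toRatAlgebra : Algebra ℚ L) = L.algebra' := Subsingleton.elim _ _
  have hga : IsGalois ℚ L := by
    have h := LL.isGalois
    rw [hEq]
    exact h
  have hn : NumberField L :=
    { to_charZero := inferInstance
      to_finiteDimensional := by
        have h := LL.finiteDimensional
        rw [hEq]
        exact h }
  have hnorm : @Normal ℚ L _ _ L.algebra' := by
    have h := LL.isGalois
    exact h.to_normal
  let i : K →+* L := (j : K →+* Ω).codRestrict L hjL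
  have hi : ∀ x, (i x : Ω) = j x := fun x => rfl
  have hic : (algebraMap L Ω).comp i = (j : K →+* Ω) := by
    ext x; rfl
  have hτex : ∃ τ' : L ≃+* L, ∀ x : L, ((τ' x : L) : Ω) = τ₀ x := by
    letI : Algebra ℚ L := L.algebra'
    haveI : Normal ℚ L := hnorm
    exact ⟨(τ₀.restrictNormal L).toRingEquiv, fun x => τ₀.restrictNormal_commutes L x⟩
  obtain ⟨τ', hτ'⟩ := hτex
  let τ : L ≃ₐ[ℚ] L := AlgEquiv.ofRingEquiv (f := τ') (fun r => by
    rw [eq_ratCast, map_ratCast])
  have hτ : ∀ x : L, (τ x : Ω) = τ₀ x := hτ'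
  have hτn : ∀ (n : ℕ) (x : L), (((τ ^ n) x : L) : Ω) = e ((σ ^ n) (e.symm x)) := by
    intro n
    induction n with
    | zero =>
      intro x
      rw [pow_zero, pow_zero, AlgEquiv.one_apply, AlgEquiv.one_apply, AlgEquiv.apply_symm_apply]
    | succ n ih =>
      intro x
      rw [pow_succ, pow_succ, AlgEquiv.mul_apply, AlgEquiv.mul_apply, ih, hτ, hτ₀,
        AlgEquiv.symm_apply_apply]
  have hmap : f.map (j : K →+* Ω) = (f.map i).map (algebraMap L Ω) := by
    rw [Polynomial.map_map, hic]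
  refine ⟨L, inferInstance, inferInstance, inferInstance, i, τ, ?_, ?_, ?_⟩
  · intro x
    apply Subtype.ext
    rw [hτ, hi, hτ₀, hj]
    simp
  · intro n hσ θ hθ h
    have h1 : aeval (e.symm (θ : Ω)) f = 0 := by
      apply e.injective
      rw [map_zero]
      have h2 : e (aeval (e.symm (θ : Ω)) f) = f.eval₂ (j : K →+* Ω) (θ : Ω) := by
        have h3 := Polynomial.hom_eval₂ f (algebraMap K (AlgebraicClosure K))
          (e : AlgebraicClosure K →+* Ω) (e.symm (θ : Ω))
        rw [aeval_def]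
        refine h3.trans ?_
        have h4 : (e : AlgebraicClosure K →+* Ω) (e.symm (θ : Ω)) = (θ : Ω) := e.apply_symm_apply _
        rw [h4]
        rfl
      rw [h2, ← hic]
      have h5 := Polynomial.hom_eval₂ f i (algebraMap L Ω) θ
      rw [hθ, map_zero] at h5
      exact h5.symm
    apply hσ _ h1
    apply e.injective
    have h3 := hτn n θ
    rw [h] at h3
    rw [← h3]
    simp
  · have h6 : (f.map (j : K →+* Ω)).Splits := IsAlgClosed.splits _
    rw [hmap] at h6
    refine Splits.of_splits_map (algebraMap L Ω) h6 ?_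
    intro θ hθ
    rw [← hmap] at hθ
    have h7 : (f.map (j : K →+* Ω)).IsRoot θ := Polynomial.isRoot_of_mem_roots hθ
    exact ⟨⟨θ, hsub (Or.inr h7)⟩, rfl⟩

lemma exists_LD (K : Type) [Field K] [NumberField K] (f : K[X]) (hf : f ≠ 0)
    (σ : AlgebraicClosure K ≃ₐ[K] AlgebraicClosure K) :
    ∃ (L : Type) (_ : Field L) (_ : NumberField L) (_ : IsGalois ℚ L) (i : K →+* L)
      (τ : L ≃ₐ[ℚ] L), (∀ x, τ (i x) = i x) ∧
        (∀ j : ℕ, (∀ θ : AlgebraicClosure K, aeval θ f = 0 → (σ ^ j) θ ≠ θ) →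
          ∀ θ, f.eval₂ i θ = 0 → (τ ^ j) θ ≠ θ) ∧
        (f.map i).Splits :=
  @exists_LD_aux (AlgebraicClosure ℚ) _ (AlgebraicClosure.instAlgebra ℚ) inferInstance inferInstance
    inferInstance K _ _ f hf σ

/-- the polynomial `g` has no zeros in the finite fields over the residue field of `v` whose degree
over the residue field is at most `D` -/
def NoSmallRoot {K : Type} [Field K] [NumberField K] (D : ℕ) (g : (𝓞 K)[X])
    (v : HeightOneSpectrum (𝓞 K)) : Prop :=
  ∀ (E : Type) [Field E] [Finite E] (χ : 𝓞 K →+* E), RingHom.ker χ = v.asIdeal →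
    Nat.card E ≤ Ideal.absNorm v.asIdeal ^ D → ∀ z : E, (g.map χ).eval z ≠ 0

/-- two homomorphisms to fields with the same kernel, the first one with values in the prime field -/
lemma hom_eq {R E C : Type} [CommRing R] [Field E] [Field C] (p : ℕ) [Fact p.Prime] [CharP C p]
    (ψ : R →+* C) (h : ∀ x, ψ x ^ p = ψ x) (χ : R →+* E) (ι : E →+* C)
    (hk : RingHom.ker χ = RingHom.ker ψ) (x : R) : ι (χ x) = ψ x := by
  classical
  have h1 : ∃ n : ℕ, ψ x = (n : C) := by
    let F : Polynomial C := X ^ p - X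
    have hF : F ≠ 0 := FiniteField.X_pow_card_sub_X_ne_zero C (Fact.out : p.Prime).one_lt
    have hdeg : F.natDegree = p :=
      FiniteField.X_pow_card_sub_X_natDegree_eq C (Fact.out : p.Prime).one_lt
    let S : Finset C := (Finset.range p).image fun n : ℕ => (n : C)
    have hSc : S.card = p := by
      rw [Finset.card_image_of_injOn, Finset.card_range]
      intro a ha b hb hab
      have h2 := (CharP.natCast_eq_natCast C p).1 (show ((a : ℕ) : C) = (b : ℕ) from hab)
      exact Nat.ModEq.eq_of_lt_of_lt h2 (Finset.mem_range.1 (Finset.mem_coe.1 ha))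
        (Finset.mem_range.1 (Finset.mem_coe.1 hb))
    have hSr : S ⊆ F.roots.toFinset := by
      intro y hy
      obtain ⟨n, -, rfl⟩ := Finset.mem_image.1 hy
      rw [Multiset.mem_toFinset, mem_roots hF, IsRoot.def, eval_sub, eval_pow, eval_X, sub_eq_zero,
        ← frobenius_def (R := C) p, map_natCast]
    have hSe : S = F.roots.toFinset := by
      apply Finset.eq_of_subset_of_card_le hSr
      rw [hSc]
      refine (Multiset.toFinset_card_le _).trans ?_
      refine (card_roots' _).trans ?_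
      rw [hdeg]
    have h2 : ψ x ∈ S := by
      rw [hSe, Multiset.mem_toFinset, mem_roots hF, IsRoot.def, eval_sub, eval_pow, eval_X, h,
        sub_self]
    obtain ⟨n, -, hn⟩ := Finset.mem_image.1 h2
    exact ⟨n, hn.symm⟩
  obtain ⟨n, hn⟩ := h1
  have h2 : x - (n : R) ∈ RingHom.ker ψ := by
    rw [RingHom.mem_ker, map_sub, map_natCast, hn, sub_self]
  rw [← hk, RingHom.mem_ker, map_sub, map_natCast, sub_eq_zero] at h2
  rw [h2, map_natCast, hn]

theorem primesD (K : Type) [Field K] [NumberField K] (g : (𝓞 K)[X]) (c : 𝓞 K) (hc : c ≠ 0)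
    (hsep : (g.map (algebraMap (𝓞 K) K)).Separable) (D : ℕ)
    (hσ : ∃ σ : AlgebraicClosure K ≃ₐ[K] AlgebraicClosure K, ∀ j, 1 ≤ j → j ≤ D →
      ∀ θ : AlgebraicClosure K, aeval θ (g.map (algebraMap (𝓞 K) K)) = 0 → (σ ^ j) θ ≠ θ)
    (ε : ℝ) (hε : 0 < ε) :
    ∃ T : Finset (HeightOneSpectrum (𝓞 K)),
      (∀ v ∈ T, c ∉ v.asIdeal ∧ (2 : 𝓞 K) ∉ v.asIdeal ∧ g.leadingCoeff ∉ v.asIdeal ∧
        (g.map (Ideal.Quotient.mk v.asIdeal)).Separable ∧ NoSmallRoot D g v) ∧
      ∏ v ∈ T, (1 - (1 / (Ideal.absNorm v.asIdeal : ℝ) -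
        1 / (Ideal.absNorm v.asIdeal : ℝ) ^ 2)) < ε := by
  classical
  obtain ⟨σ, hσ⟩ := hσ
  obtain ⟨L, _, _, _, i, τ, hτi, hτθ, hspl⟩ :=
    exists_LD K (g.map (algebraMap (𝓞 K) K)) hsep.ne_zero σ
  let iO : 𝓞 K →+* 𝓞 L := RingOfIntegers.mapRingHom i
  have hiO : ∀ x, ((iO x : 𝓞 L) : L) = i x := fun x => rfl
  have hiinj : Function.Injective iO := by
    intro x y hxy
    have h1 : (iO x : L) = iO y := by rw [hxy]
    rw [hiO, hiO] at h1
    exact RingOfIntegers.coe_injective (i.injective h1)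
  have hsmul : ∀ x : 𝓞 L, ((τ • x : 𝓞 L) : L) = τ x := fun x => rfl
  have hsmuln : ∀ (n : ℕ) (x : 𝓞 L), (((τ ^ n) • x : 𝓞 L) : L) = (τ ^ n) x := fun n x => rfl
  have hτO : ∀ x, τ • (iO x) = iO x := by
    intro x
    apply RingOfIntegers.ext
    rw [hsmul, hiO, hτi]
  have hτin : ∀ (n : ℕ) x, (τ ^ n) (i x) = i x := by
    intro n x
    induction n with
    | zero => rw [pow_zero, AlgEquiv.one_apply]
    | succ n ih => rw [pow_succ, AlgEquiv.mul_apply, hτi, ih]
  obtain ⟨u, w, D', hD', huw⟩ := sep_int K g hsep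
  have hg0 : g ≠ 0 := by
    rintro rfl
    exact hsep.ne_zero (Polynomial.map_zero _)
  set lc := g.leadingCoeff with hlc
  have hlc0 : lc ≠ 0 := leadingCoeff_ne_zero.mpr hg0
  -- the image of `g` over `L`
  set gL : L[X] := (g.map (algebraMap (𝓞 K) K)).map i with hgL
  have hgL0 : gL ≠ 0 := by
    rw [hgL, Ne, Polynomial.map_eq_zero]
    exact hsep.ne_zero
  have hgLlc : gL.leadingCoeff = i (lc : K) := by
    rw [hgL, leadingCoeff_map, leadingCoeff_map_of_injective
      (FaithfulSMul.algebraMap_injective (𝓞 K) K)]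
  have hroot : ∀ θ ∈ gL.roots, gL.eval θ = 0 := fun θ hθ => (mem_roots hgL0).mp hθ
  have hint : ∀ θ ∈ gL.roots, IsIntegral ℤ (i (lc : K) * θ) := by
    intro θ hθ
    have h1 : (i.comp (algebraMap (𝓞 K) K)).IsIntegralElem
        ((i.comp (algebraMap (𝓞 K) K)) lc * θ) := by
      refine (i.comp (algebraMap (𝓞 K) K)).isIntegralElem_leadingCoeff_mul g θ ?_
      have h2 := hroot θ hθ
      rw [hgL, Polynomial.map_map, eval_map] at h2
      exact h2
    let _ : Algebra (𝓞 K) L := (i.comp (algebraMap (𝓞 K) K)).toAlgebra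
    exact isIntegral_trans (R := ℤ) (A := 𝓞 K) _ h1
  have hηex : ∀ θ : L, ∃ y : 𝓞 L, θ ∈ gL.roots → ((y : 𝓞 L) : L) = i (lc : K) * θ := by
    intro θ
    by_cases hθ : θ ∈ gL.roots
    · exact ⟨⟨_, hint θ hθ⟩, fun _ => rfl⟩
    · exact ⟨0, fun h => absurd h hθ⟩
  choose η hη using hηex
  have hδ : ∀ θ ∈ gL.roots, ∀ j, 1 ≤ j → j ≤ D → (τ ^ j) • (η θ) - η θ ≠ 0 := by
    intro θ hθ j hj1 hjD h0
    have h1 : (((τ ^ j) • (η θ) - η θ : 𝓞 L) : L) = 0 := by rw [h0]; rfl
    have h2 : (((τ ^ j) • (η θ) - η θ : 𝓞 L) : L) = i (lc : K) * ((τ ^ j) θ - θ) := by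
      have h3 : (((τ ^ j) • (η θ) - η θ : 𝓞 L) : L) = (τ ^ j) (η θ) - η θ := rfl
      rw [h3, hη θ hθ, map_mul, hτin]
      ring
    rw [h2, mul_eq_zero] at h1
    rcases h1 with h1 | h1
    · apply hlc0
      apply RingOfIntegers.coe_injective
      apply i.injective
      rw [h1]
      simp
    · refine hτθ j (hσ j hj1 hjD) θ ?_ (sub_eq_zero.mp h1)
      have h2 := hroot θ hθ
      rw [hgL, eval_map] at h2
      exact h2
  -- the bad primes
  have hE1 : iO (c * 2 * lc * D') ≠ 0 := by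
    rw [Ne, map_eq_zero_iff iO hiinj]
    exact mul_ne_zero (mul_ne_zero (mul_ne_zero hc two_ne_zero) hlc0) hD'
  obtain ⟨m1, hm1, hm1'⟩ := nz L _ hE1
  choose mθ hmθ hmθ' using fun q : {θ // θ ∈ gL.roots.toFinset} × Fin D =>
    nz L _ (hδ q.1.1 (Multiset.mem_toFinset.mp q.1.2) (q.2.1 + 1) (by omega) (by omega))
  set m : ℕ := m1 * ∏ θ, mθ θ with hm
  have hmpos : 0 < m := Nat.mul_pos hm1 (Finset.prod_pos fun θ _ => hmθ θ)
  obtain ⟨δ, C', hδpos, hcount⟩ := count L τ m hmpos
  refine many (frobSet L τ m) (fun p hp => hp.1) (diverge _ δ C' hδpos hcount)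
    (fun v : HeightOneSpectrum (𝓞 K) => Ideal.absNorm v.asIdeal) _ ?_ ε hε
  intro p hp
  obtain ⟨hpp, hpm, hxp⟩ := hp
  have : Fact p.Prime := ⟨hpp⟩
  have hex : ∃ φ : 𝓞 L →+* AlgebraicClosure (ZMod p), HasFrob p φ τ := by
    unfold xp at hxp
    rw [dif_pos hpp] at hxp
    by_contra h
    push Not at h
    apply hxp
    rw [Nat.card_eq_zero]
    left
    exact ⟨fun x => h x.1 x.2⟩
  obtain ⟨φ, hφ⟩ := hex
  have hφn : ∀ (n : ℕ) (x : 𝓞 L), φ ((τ ^ n) • x) = φ x ^ (p ^ n) := by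
    intro n
    induction n with
    | zero => intro x; rw [pow_zero, one_smul, pow_zero, pow_one]
    | succ n ih =>
      intro x
      rw [pow_succ, mul_smul, ih, hφ, ← pow_mul, pow_succ, mul_comm p]
  have hcast : ∀ n : ℕ, n ∣ m → (n : AlgebraicClosure (ZMod p)) ≠ 0 := by
    intro n hn h
    rw [CharP.cast_eq_zero_iff (AlgebraicClosure (ZMod p)) p] at h
    exact hpm (h.trans hn)
  have hφE1 : φ (iO (c * 2 * lc * D')) ≠ 0 := hm1' _ φ (hcast m1 (Dvd.intro _ rfl))
  have hφθ : ∀ θ ∈ gL.roots, ∀ j, 1 ≤ j → j ≤ D → φ ((τ ^ j) • (η θ) - η θ) ≠ 0 := by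
    intro θ hθ j hj1 hjD
    have hθ' : θ ∈ gL.roots.toFinset := Multiset.mem_toFinset.mpr hθ
    have h1 := hmθ' ⟨⟨θ, hθ'⟩, ⟨j - 1, by omega⟩⟩ _ φ (hcast _ ?_)
    · have h2 : (j - 1) + 1 = j := by omega
      simp only [h2] at h1
      exact h1
    · exact (Finset.dvd_prod_of_mem mθ (Finset.mem_univ _)).trans (Dvd.intro_left _ rfl)
  let ψ : 𝓞 K →+* AlgebraicClosure (ZMod p) := φ.comp iO
  have hψ : ∀ x, ψ x ^ p = ψ x := by
    intro x
    have h1 := hφ (iO x)
    rw [hτO] at h1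
    exact h1.symm
  have hψn : ∀ (n : ℕ) x, ψ x ^ (p ^ n) = ψ x := by
    intro n x
    induction n with
    | zero => rw [pow_zero, pow_one]
    | succ n ih => rw [pow_succ, pow_mul, ih, hψ]
  have hnorm := absNorm_ker K p (AlgebraicClosure (ZMod p)) ψ hψ
  have hmem : ∀ x, x ∈ RingHom.ker ψ ↔ φ (iO x) = 0 := fun x => RingHom.mem_ker
  have hprime : (RingHom.ker ψ).IsPrime := RingHom.ker_isPrime ψ
  have hbot : RingHom.ker ψ ≠ ⊥ := by
    intro h
    rw [h, Ideal.absNorm_bot] at hnorm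
    exact hpp.ne_zero hnorm.symm
  have hmax : (RingHom.ker ψ).IsMaximal := hprime.isMaximal hbot
  have hφ4 : φ (iO c) ≠ 0 ∧ φ (iO 2) ≠ 0 ∧ φ (iO lc) ≠ 0 ∧ φ (iO D') ≠ 0 := by
    rw [map_mul, map_mul, map_mul, map_mul, map_mul, map_mul] at hφE1
    refine ⟨?_, ?_, ?_, ?_⟩ <;> intro h <;> apply hφE1 <;> rw [h] <;> ring
  obtain ⟨h4c, h42, h4lc, h4D⟩ := hφ4
  refine ⟨⟨RingHom.ker ψ, hprime, hbot⟩, ⟨?_, ?_, ?_, ?_, ?_⟩, hnorm⟩
  · exact fun h => h4c ((hmem _).mp h)
  · exact fun h => h42 ((hmem _).mp h)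
  · exact fun h => h4lc ((hmem _).mp h)
  · obtain ⟨y, hy⟩ : ∃ y : 𝓞 K, (Ideal.Quotient.mk (RingHom.ker ψ)) (y * D') = 1 := by
      obtain ⟨y, z, hz, hy⟩ := hmax.exists_inv (fun h => h4D ((hmem _).mp h))
      refine ⟨y, ?_⟩
      have h6 := congrArg (Ideal.Quotient.mk (RingHom.ker ψ)) hy
      rw [map_add, Ideal.Quotient.eq_zero_iff_mem.mpr hz, add_zero, map_one] at h6
      exact h6
    refine ⟨C (Ideal.Quotient.mk _ y) * u.map (Ideal.Quotient.mk _),
      C (Ideal.Quotient.mk _ y) * w.map (Ideal.Quotient.mk _), ?_⟩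
    have h5 := congrArg (Polynomial.map (Ideal.Quotient.mk (RingHom.ker ψ))) huw
    rw [Polynomial.map_add, Polynomial.map_mul, Polynomial.map_mul, map_C] at h5
    rw [derivative_map, mul_assoc, mul_assoc, ← mul_add, h5, ← C_mul, ← map_mul, hy, C_1]
  · intro E _ _ χ hχ hcard z hz
    change Nat.card E ≤ Ideal.absNorm (RingHom.ker ψ) ^ D at hcard
    change RingHom.ker χ = RingHom.ker ψ at hχ
    rw [hnorm] at hcard
    -- the characteristic of `E`
    have hpE : (p : E) = 0 := by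
      have h1 : (p : 𝓞 K) ∈ RingHom.ker ψ := by
        rw [RingHom.mem_ker, map_natCast, CharP.cast_eq_zero]
      rw [← hχ, RingHom.mem_ker, map_natCast] at h1
      exact h1
    have hchar : CharP E p := by
      obtain ⟨q, hq⟩ := CharP.exists E
      have h1 : q ∣ p := (CharP.cast_eq_zero_iff E q p).1 hpE
      rcases (Nat.dvd_prime hpp).1 h1 with h2 | h2
      · exfalso
        rw [h2] at hq
        exact CharP.char_ne_one E 1 rfl
      · rwa [h2] at hq
    letI : Algebra (ZMod p) E := ZMod.algebra E p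
    have hfd : Module.Finite (ZMod p) E := Module.Finite.of_finite
    have halg : Algebra.IsAlgebraic (ZMod p) E := inferInstance
    let ι : E →+* AlgebraicClosure (ZMod p) :=
      (IsAlgClosed.lift (R := ZMod p) (S := E) (M := AlgebraicClosure (ZMod p))).toRingHom
    have hιχ : ∀ x, ι (χ x) = ψ x := hom_eq p ψ hψ χ ι hχ
    have := Fintype.ofFinite E
    obtain ⟨n, hpn, hn⟩ := FiniteField.card E p
    have hnD : (n : ℕ) ≤ D := by
      rw [Nat.card_eq_fintype_card, hn] at hcard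
      exact (Nat.pow_le_pow_iff_right hpp.one_lt).1 hcard
    have hz1 : (ι z) ^ (p ^ (n : ℕ)) = ι z := by
      rw [← map_pow, ← hn, FiniteField.pow_card]
    have hz0 : (g.map ψ).eval (ι z) = 0 := by
      have h1 : ι ((g.map χ).eval z) = 0 := by rw [hz, map_zero]
      rw [eval_map] at h1
      rw [eval_map]
      rw [hom_eval₂] at h1
      have h2 : ι.comp χ = ψ := RingHom.ext hιχ
      rw [h2] at h1
      exact h1
    have hfac : gL = C gL.leadingCoeff * (gL.roots.map fun θ => X - C θ).prod :=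
      hspl.eq_prod_roots
    have h2 : C (iO lc) ^ (Multiset.card gL.roots) * g.map iO =
        C (iO lc) * (gL.roots.map fun θ => C (iO lc) * X - C (η θ)).prod := by
      apply Polynomial.map_injective (algebraMap (𝓞 L) L) RingOfIntegers.coe_injective
      rw [Polynomial.map_mul, Polynomial.map_mul, Polynomial.map_pow, Polynomial.map_multiset_prod,
        Multiset.map_map, map_C]
      have h7 : (g.map iO).map (algebraMap (𝓞 L) L) = gL := by
        rw [hgL, Polynomial.map_map, Polynomial.map_map]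
        rfl
      have h8 : (algebraMap (𝓞 L) L) (iO lc) = i (lc : K) := rfl
      have h10 : gL.roots.map ((Polynomial.map (algebraMap (𝓞 L) L)) ∘
          fun θ => C (iO lc) * X - C (η θ)) =
          gL.roots.map (fun θ => C (i (lc : K)) * (X - C θ)) := by
        refine Multiset.map_congr rfl fun θ hθ => ?_
        have h11 := hη θ hθ
        change Polynomial.map (algebraMap (𝓞 L) L) (C (iO lc) * X - C (η θ)) = _
        rw [Polynomial.map_sub, Polynomial.map_mul, map_C, map_X, map_C, h8]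
        change C (i (lc : K)) * X - C ((η θ : 𝓞 L) : L) = _
        rw [h11, C_mul]
        ring
      rw [h7, h8, h10, Multiset.prod_map_mul, Multiset.map_const', Multiset.prod_replicate]
      rw [hgLlc] at hfac
      linear_combination (C (i (lc : K)) ^ (Multiset.card gL.roots)) * hfac
    have h3 := congrArg (fun q => (q.map φ).eval (ι z)) h2
    simp only [Polynomial.map_mul, Polynomial.map_pow, Polynomial.map_multiset_prod,
      Multiset.map_map, map_C, Polynomial.map_map, eval_mul, eval_pow, eval_C,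
      eval_multiset_prod] at h3
    change _ * (g.map ψ).eval (ι z) = _ at h3
    rw [hz0, mul_zero] at h3
    rcases mul_eq_zero.mp h3.symm with h | h
    · exact h4lc h
    · rw [Multiset.prod_eq_zero_iff, Multiset.mem_map] at h
      obtain ⟨θ, hθ, h5⟩ := h
      have h6 : φ (iO lc) * ι z = φ (η θ) := by
        have h7 : ((C (iO lc) * X - C (η θ)).map φ).eval (ι z) = 0 := h5
        rw [Polynomial.map_sub, Polynomial.map_mul, map_C, map_X, map_C, eval_sub, eval_mul,
          eval_C, eval_X, eval_C, sub_eq_zero] at h7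
        exact h7
      apply hφθ θ hθ n n.2 hnD
      rw [map_sub, hφn, ← h6, mul_pow, hz1]
      have h8 := hψn n lc
      change φ (iO lc) ^ (p ^ (n : ℕ)) = φ (iO lc) at h8
      rw [h8, sub_self]

end Pool.Agent.Q52.SecX
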