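import Pool.Agent.Q52.SecX.Loc
import Pool.Agent.TH377.Sup.Good
import Pool.Agent.TH120.Sec.Split

/-! Almost all vectors of integers are good at many primes. -/

set_option autoImplicit false

namespace Pool.Agent.Q52.SecX

open Polynomial NumberField IsDedekindDomain
open Pool.Agent.TH120.Sec (red)

/-- fibres of surjective homomorphisms have the same size -/
lemma ncard_fiber {A B : Type} [AddCommGroup A] [AddCommGroup B] [Finite A] [Finite B]
    (q : A →+ B) (hq : Function.Surjective q) (S : Set A) (S' : Set B) (h : ∀ x ∈ S, q x ∈ S') :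
    S.ncard * Nat.card B ≤ S'.ncard * Nat.card A := by
  classical
  have := Fintype.ofFinite A
  have := Fintype.ofFinite B
  set k := (Finset.univ.filter fun x : A => q x = 0).card with hk
  have hfib : ∀ y : B, (Finset.univ.filter fun x : A => q x = y).card = k := by
    intro y
    exact AddMonoidHom.card_fiber_eq_of_mem_range (f := q)
      ⟨(hq y).choose, (hq y).choose_spec⟩ ⟨0, map_zero q⟩
  have h1 : Fintype.card A = Fintype.card B * k := by
    rw [← Finset.card_univ, Finset.card_eq_sum_card_fiberwise (f := q) (t := Finset.univ)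
      (fun x _ => Finset.mem_univ _)]
    rw [Finset.sum_congr rfl fun y _ => hfib y, Finset.sum_const, Finset.card_univ, smul_eq_mul]
  have h2 : S.ncard ≤ S'.ncard * k := by
    rw [Set.ncard_eq_toFinset_card', Set.ncard_eq_toFinset_card']
    rw [Finset.card_eq_sum_card_fiberwise (f := q) (t := S'.toFinset)]
    · calc _ ≤ ∑ b ∈ S'.toFinset, k := by
            refine Finset.sum_le_sum fun b _ => ?_
            rw [← hfib b]
            exact Finset.card_le_card (Finset.filter_subset_filter _ (Finset.subset_univ _))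
        _ = _ := by rw [Finset.sum_const, smul_eq_mul]
    · intro x hx
      rw [Finset.mem_coe, Set.mem_toFinset] at hx ⊢
      exact h x hx
  rw [Nat.card_eq_fintype_card, Nat.card_eq_fintype_card, h1]
  calc _ ≤ (S'.ncard * k) * Fintype.card B := Nat.mul_le_mul_right _ h2
    _ = _ := by ring

/-- `E` lies in at most `ε #(R/I)^d` residue classes modulo some ideal `I ≠ 0` -/
def SmallV {R : Type} [CommRing R] (d : ℕ) (E : Set (Fin d → R)) (ε : ℝ) : Prop :=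
  ∃ I : Ideal R, I ≠ ⊥ ∧ Finite (R ⧸ I) ∧
    (Set.ncard (red I d '' E) : ℝ) ≤ ε * (Nat.card (R ⧸ I) : ℝ) ^ d

lemma SmallV.mono {R : Type} [CommRing R] {d : ℕ} {E E' : Set (Fin d → R)} {ε ε' : ℝ}
    (h : SmallV d E ε) (hE : E' ⊆ E) (hε : ε ≤ ε') : SmallV d E' ε' := by
  obtain ⟨I, h1, h2, h3⟩ := h
  refine ⟨I, h1, h2, ?_⟩
  have h4 : Set.ncard (red I d '' E') ≤ Set.ncard (red I d '' E) :=
    Set.ncard_le_ncard (Set.image_mono hE) (Set.toFinite _)
  calc (Set.ncard (red I d '' E') : ℝ) ≤ _ := by exact_mod_cast h4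
    _ ≤ _ := h3
    _ ≤ _ := mul_le_mul_of_nonneg_right hε (by positivity)

lemma SmallV.union {K : Type} [Field K] [NumberField K] {d : ℕ} {E E' : Set (Fin d → 𝓞 K)}
    {ε ε' : ℝ} (h : SmallV d E ε) (h' : SmallV d E' ε') : SmallV d (E ∪ E') (ε + ε') := by
  obtain ⟨I, h1, h2, h3⟩ := h
  obtain ⟨J, h1', h2', h3'⟩ := h'
  have hIJ : I * J ≠ ⊥ := mul_ne_zero h1 h1'
  have hfin : Finite (𝓞 K ⧸ I * J) := Ideal.finiteQuotientOfFreeOfNeBot _ hIJ
  refine ⟨I * J, hIJ, hfin, ?_⟩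
  have key : ∀ (A : Ideal (𝓞 K)) (F : Set (Fin d → 𝓞 K)) (δ : ℝ), I * J ≤ A → Finite (𝓞 K ⧸ A) →
      (Set.ncard (red A d '' F) : ℝ) ≤ δ * (Nat.card (𝓞 K ⧸ A) : ℝ) ^ d →
      (Set.ncard (red (I * J) d '' F) : ℝ) ≤ δ * (Nat.card (𝓞 K ⧸ I * J) : ℝ) ^ d := by
    intro A F δ hA hfA hF
    let q0 : 𝓞 K ⧸ I * J →+* 𝓞 K ⧸ A := Ideal.Quotient.factor hA
    have hq0 : Function.Surjective q0 := Ideal.Quotient.factor_surjective hA
    let q : (Fin d → 𝓞 K ⧸ I * J) →+ (Fin d → 𝓞 K ⧸ A) :=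
      { toFun := fun x i => q0 (x i)
        map_zero' := by funext i; exact map_zero q0
        map_add' := by intro x y; funext i; exact map_add q0 _ _ }
    have hq : Function.Surjective q := by
      intro y
      choose x hx using fun i => hq0 (y i)
      exact ⟨x, funext hx⟩
    have h5 := ncard_fiber q hq (red (I * J) d '' F) (red A d '' F) (by
      rintro _ ⟨a, ha, rfl⟩
      exact ⟨a, ha, rfl⟩)
    rw [Nat.card_fun, Nat.card_fun, Nat.card_fin] at h5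
    have h6 : (0 : ℝ) < (Nat.card (𝓞 K ⧸ A) : ℝ) ^ d := by
      have : (0 : ℝ) < Nat.card (𝓞 K ⧸ A) := by exact_mod_cast Nat.card_pos
      positivity
    have h7 : (Set.ncard (red (I * J) d '' F) : ℝ) * (Nat.card (𝓞 K ⧸ A) : ℝ) ^ d ≤
        Set.ncard (red A d '' F) * (Nat.card (𝓞 K ⧸ I * J) : ℝ) ^ d := by exact_mod_cast h5
    have h8 : (0 : ℝ) ≤ (Nat.card (𝓞 K ⧸ I * J) : ℝ) ^ d := by positivity
    have h9 := h7.trans (mul_le_mul_of_nonneg_right hF h8)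
    have h10 : (Set.ncard (red (I * J) d '' F) : ℝ) * (Nat.card (𝓞 K ⧸ A) : ℝ) ^ d ≤
        (δ * (Nat.card (𝓞 K ⧸ I * J) : ℝ) ^ d) * (Nat.card (𝓞 K ⧸ A) : ℝ) ^ d := by linarith
    exact le_of_mul_le_mul_right h10 h6
  rw [Set.image_union]
  have h4 : (Set.ncard (red (I * J) d '' E ∪ red (I * J) d '' E') : ℝ) ≤
      Set.ncard (red (I * J) d '' E) + Set.ncard (red (I * J) d '' E') := by
    exact_mod_cast Set.ncard_union_le _ _
  rw [add_mul]
  exact h4.trans (add_le_add (key I E ε (Ideal.mul_le_inf.trans inf_le_left) h2 h3)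
    (key J E' ε' (Ideal.mul_le_inf.trans inf_le_right) h2' h3'))

section

variable {K : Type} [Field K] [NumberField K]

/-- one finite set of primes -/
theorem small_of_supply (d : ℕ) (T : Finset (HeightOneSpectrum (𝓞 K)))
    (S : (v : HeightOneSpectrum (𝓞 K)) → Set (Fin d → 𝓞 K ⧸ v.asIdeal ^ 2)) (δ ε : ℝ)
    (hTε : ∏ v ∈ T, (1 - δ * (1 / (Ideal.absNorm v.asIdeal : ℝ) -
        1 / (Ideal.absNorm v.asIdeal : ℝ) ^ 2)) < ε)
    (hcard : ∀ v ∈ T, ((S v).ncard : ℝ) ≤ (1 - δ * (1 / (Ideal.absNorm v.asIdeal : ℝ) -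
        1 / (Ideal.absNorm v.asIdeal : ℝ) ^ 2)) * ((Ideal.absNorm v.asIdeal : ℝ) ^ 2) ^ d) :
    SmallV d {a : Fin d → 𝓞 K | ∀ v ∈ T, red (v.asIdeal ^ 2) d a ∈ S v} ε := by
  classical
  obtain ⟨e, he⟩ := Pool.Agent.W417.SecC.D2.crt T
  have hfin : ∀ v : T, Finite (𝓞 K ⧸ v.1.asIdeal ^ 2) := by
    intro v
    apply Nat.finite_of_card_ne_zero
    rw [Pool.Agent.W417.SecC.D2.card_sq]
    exact pow_ne_zero _ (Pool.Agent.W417.SecC.D2.norm_pos _).ne'
  have hcardI : (Nat.card (𝓞 K ⧸ ∏ v ∈ T, v.asIdeal ^ 2) : ℝ) =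
      ∏ v ∈ T, (Ideal.absNorm v.asIdeal : ℝ) ^ 2 := by
    rw [Nat.card_congr e.toEquiv, Nat.card_pi, ← Finset.prod_coe_sort T]
    push_cast
    refine Finset.prod_congr rfl fun v _ => ?_
    rw [Pool.Agent.W417.SecC.D2.card_sq]
    push_cast
    rfl
  have hne : ∏ v ∈ T, v.asIdeal ^ 2 ≠ ⊥ :=
    Finset.prod_ne_zero_iff.2 fun v _ => pow_ne_zero _ v.ne_bot
  refine ⟨∏ v ∈ T, v.asIdeal ^ 2, hne, Ideal.finiteQuotientOfFreeOfNeBot _ hne, ?_⟩
  have h1 := Pool.Agent.TH120.Sec.countd (∏ v ∈ T, v.asIdeal ^ 2) T (fun v => v.1.asIdeal ^ 2) e he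
    hfin d {a : Fin d → 𝓞 K | ∀ v ∈ T, red (v.asIdeal ^ 2) d a ∈ S v}
    (fun v => S v.1) (fun a ha v => ha v.1 v.2)
  have h1' : ((red (∏ v ∈ T, v.asIdeal ^ 2) d ''
      {a : Fin d → 𝓞 K | ∀ v ∈ T, red (v.asIdeal ^ 2) d a ∈ S v}).ncard : ℝ) ≤
      ∏ v : T, ((S v.1).ncard : ℝ) := by
    exact_mod_cast h1
  refine h1'.trans ?_
  have h2 := Pool.Agent.TH120.Sec.prod_bound T (fun v : T => ((S v.1).ncard : ℝ))
    (fun v => (1 - δ * (1 / (Ideal.absNorm v.asIdeal : ℝ) -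
        1 / (Ideal.absNorm v.asIdeal : ℝ) ^ 2)))
    (fun v => ((Ideal.absNorm v.asIdeal : ℝ) ^ 2) ^ d) (fun _ => Nat.cast_nonneg _)
    (fun v => hcard v.1 v.2)
  refine h2.trans ?_
  rw [Finset.prod_pow, hcardI]
  exact mul_le_mul_of_nonneg_right hTε.le
    (pow_nonneg (Finset.prod_nonneg fun _ _ => sq_nonneg _) d)

theorem many_vec (d : ℕ) (P : HeightOneSpectrum (𝓞 K) → Prop)
    (S : (v : HeightOneSpectrum (𝓞 K)) → Set (Fin d → 𝓞 K ⧸ v.asIdeal ^ 2)) (δ : ℝ)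
    (hsup : ∀ c : 𝓞 K, c ≠ 0 → ∀ ε : ℝ, 0 < ε → ∃ T : Finset (HeightOneSpectrum (𝓞 K)),
      (∀ v ∈ T, c ∉ v.asIdeal ∧ P v) ∧
      ∏ v ∈ T, (1 - δ * (1 / (Ideal.absNorm v.asIdeal : ℝ) -
        1 / (Ideal.absNorm v.asIdeal : ℝ) ^ 2)) < ε)
    (hcard : ∀ v, P v → ((S v).ncard : ℝ) ≤ (1 - δ * (1 / (Ideal.absNorm v.asIdeal : ℝ) -
        1 / (Ideal.absNorm v.asIdeal : ℝ) ^ 2)) * ((Ideal.absNorm v.asIdeal : ℝ) ^ 2) ^ d)
    (M : ℕ) :
    ∀ (S₀ : Finset (HeightOneSpectrum (𝓞 K))) (ε : ℝ), 0 < ε →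
      SmallV d {a : Fin d → 𝓞 K | ¬ ∃ T : Finset (HeightOneSpectrum (𝓞 K)), T.card = M ∧
        Disjoint T S₀ ∧ ∀ v ∈ T, P v ∧ red (v.asIdeal ^ 2) d a ∉ S v} ε := by
  classical
  induction M with
  | zero =>
    intro S₀ ε hε
    refine ⟨⊤, top_ne_bot, inferInstance, ?_⟩
    have h1 : {a : Fin d → 𝓞 K | ¬ ∃ T : Finset (HeightOneSpectrum (𝓞 K)), T.card = 0 ∧
        Disjoint T S₀ ∧ ∀ v ∈ T, P v ∧ red (v.asIdeal ^ 2) d a ∉ S v} = ∅ := by
      rw [Set.eq_empty_iff_forall_notMem]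
      intro a ha
      exact ha ⟨∅, Finset.card_empty, Finset.disjoint_empty_left _, by simp⟩
    rw [h1, Set.image_empty, Set.ncard_empty, Nat.cast_zero]
    exact mul_nonneg hε.le (by positivity)
  | succ M ih =>
    intro S₀ ε hε
    have hcS : ∃ c : 𝓞 K, c ≠ 0 ∧ ∀ v ∈ S₀, c ∈ v.asIdeal := by
      refine ⟨∏ v ∈ S₀, (Ideal.absNorm v.asIdeal : 𝓞 K), ?_, ?_⟩
      · refine Finset.prod_ne_zero_iff.2 fun v _ => ?_
        rw [Nat.cast_ne_zero]
        exact (Pool.Agent.W417.SecC.D2.norm_pos v).ne'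
      · intro v hv
        rw [← Finset.mul_prod_erase _ _ hv]
        exact Ideal.mul_mem_right _ _ (Ideal.absNorm_mem _)
    obtain ⟨c, hc0, hcS⟩ := hcS
    obtain ⟨T₀, hT₀, hprod⟩ := hsup c hc0 (ε / 2) (by positivity)
    have hE := small_of_supply d T₀ S δ (ε / 2) hprod (fun v hv => hcard v (hT₀ v hv).2)
    refine (hE.union (ih (S₀ ∪ T₀) (ε / 2) (by positivity))).mono ?_ (by linarith)
    intro a ha
    by_contra hcon
    rw [Set.mem_union, not_or] at hcon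
    obtain ⟨h1, h2⟩ := hcon
    simp only [Set.mem_ofPred_eq, not_forall, not_not, exists_prop] at h1 h2
    obtain ⟨v₀, hv₀, hex⟩ := h1
    obtain ⟨T, hTc, hTd, hT⟩ := h2
    apply ha
    have hv₀T : v₀ ∉ T := fun h =>
      (Finset.disjoint_left.1 hTd h) (Finset.mem_union_right _ hv₀)
    refine ⟨insert v₀ T, ?_, ?_, ?_⟩
    · rw [Finset.card_insert_of_notMem hv₀T, hTc]
    · rw [Finset.disjoint_insert_left]
      refine ⟨fun h => (hT₀ v₀ hv₀).1 (hcS v₀ h), ?_⟩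
      exact hTd.mono_right Finset.subset_union_left
    · intro v hv
      rcases Finset.mem_insert.1 hv with rfl | hv
      · exact ⟨(hT₀ v hv₀).2, hex⟩
      · exact hT v hv

end

end Pool.Agent.Q52.SecX
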